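import Mathlib

/-!
# Adversaries
-/

set_option autoImplicit false

namespace Pool.Agent.L0h66.EV

open Finset

section

variable {E : Type} [DecidableEq E]

/-- the state is reduced to one unqueried element -/
theorem reduce (Inv : Finset E → Finset E → Prop)
    (step : ∀ U Y e, Inv U Y → e ∈ U → (∃ f ∈ U, f ≠ e) →
      Inv (U.erase e) Y ∨ Inv (U.erase e) (insert e Y)) :
    ∀ (k : ℕ) (U Y : Finset E), U.card = k + 1 → Inv U Y → ∃ e Y', Inv {e} Y' ∧ Y ⊆ Y' ∧
      insert e Y' ⊆ Y ∪ U := by
  intro k
  induction k with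
  | zero =>
    intro U Y hk h
    obtain ⟨e, rfl⟩ := card_eq_one.1 hk
    refine ⟨e, Y, h, Subset.refl _, ?_⟩
    intro x hx
    rw [mem_insert] at hx
    rw [mem_union, mem_singleton]
    exact hx.symm
  | succ k ih =>
    intro U Y hk h
    obtain ⟨e, he, f, hf, hef⟩ := one_lt_card.1 (show 1 < U.card by omega)
    have hc : (U.erase e).card = k + 1 := by rw [card_erase_of_mem he]; omega
    rcases step U Y e h he ⟨f, hf, hef.symm⟩ with h1 | h1
    · obtain ⟨e', Y', h2, h3, h4⟩ := ih _ _ hc h1
      refine ⟨e', Y', h2, h3, h4.trans ?_⟩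
      exact union_subset_union (Subset.refl _) (erase_subset _ _)
    · obtain ⟨e', Y', h2, h3, h4⟩ := ih _ _ hc h1
      refine ⟨e', Y', h2, (subset_insert _ _).trans h3, h4.trans ?_⟩
      intro x hx
      rw [mem_union, mem_insert] at hx
      rw [mem_union]
      rcases hx with (rfl | hx) | hx
      · exact Or.inr he
      · exact Or.inl hx
      · exact Or.inr (mem_of_mem_erase hx)

/-- **An invariant that can always be kept defeats every adaptive strategy.** -/
theorem adversary (Inv : Finset E → Finset E → Prop) (P : Finset E → Prop)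
    (step : ∀ U Y e, Inv U Y → e ∈ U → (∃ f ∈ U, f ≠ e) →
      Inv (U.erase e) Y ∨ Inv (U.erase e) (insert e Y))
    (fin : ∀ e Y, Inv {e} Y → P (insert e Y) ∧ ¬ P Y)
    (E0 : Finset E) (h0 : Inv E0 ∅) (hne : E0.Nonempty)
    (σ : Finset E → Finset E → E)
    (hσ : ∀ Q A B, (∀ e ∈ Q, (e ∈ A ↔ e ∈ B)) → σ Q A = σ Q B) :
    ∃ A B, A ⊆ E0 ∧ B ⊆ E0 ∧
      (∀ e ∈ (fun Q : Finset E => insert (σ Q A) Q)^[E0.card - 1] ∅, (e ∈ A ↔ e ∈ B)) ∧
      P A ∧ ¬ P B := by
  have hpos : 0 < E0.card := card_pos.2 hne
  have key : ∀ k, k ≤ E0.card - 1 → ∃ U Y, Inv U Y ∧ U ⊆ E0 ∧ Y ⊆ E0 ∧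
      E0.card ≤ U.card + k ∧ ∃ Q : Finset E, (∀ e ∈ Q, e ∉ U) ∧
        ∀ A, Y ⊆ A → A ⊆ Y ∪ U → (fun Q : Finset E => insert (σ Q A) Q)^[k] ∅ = Q := by
    intro k
    induction k with
    | zero =>
      intro _
      exact ⟨E0, ∅, h0, Subset.refl _, empty_subset _, by omega, ∅,
        fun e he => absurd he (notMem_empty _), fun A _ _ => rfl⟩
    | succ k ih =>
      intro hk
      obtain ⟨U, Y, h1, h2, h3, h4, Q, h5, h6⟩ := ih (by omega)
      have hag : ∀ A, Y ⊆ A → A ⊆ Y ∪ U → σ Q A = σ Q Y := by
        intro A hA1 hA2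
        apply hσ
        intro e he
        constructor
        · intro h7
          rcases mem_union.1 (hA2 h7) with h8 | h8
          · exact h8
          · exact absurd h8 (h5 e he)
        · intro h7
          exact hA1 h7
      by_cases he : σ Q Y ∈ U
      · have hU2 : 1 < U.card := by omega
        obtain ⟨f, hf, hfe⟩ := exists_mem_ne hU2 (σ Q Y)
        have hc : (U.erase (σ Q Y)).card = U.card - 1 := card_erase_of_mem he
        rcases step U Y _ h1 he ⟨f, hf, hfe⟩ with h7 | h7
        · refine ⟨_, _, h7, (erase_subset _ _).trans h2, h3, by omega, insert (σ Q Y) Q, ?_, ?_⟩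
          · intro e he1 he2
            rw [mem_insert] at he1
            rw [mem_erase] at he2
            rcases he1 with he1 | he1
            · exact he2.1 he1
            · exact h5 e he1 he2.2
          · intro A hA1 hA2
            have hA3 : A ⊆ Y ∪ U := hA2.trans (union_subset_union (Subset.refl _) (erase_subset _ _))
            rw [Function.iterate_succ_apply', h6 A hA1 hA3]
            simp only [hag A hA1 hA3]
        · refine ⟨_, _, h7, (erase_subset _ _).trans h2, insert_subset (h2 he) h3, by omega,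
            insert (σ Q Y) Q, ?_, ?_⟩
          · intro e he1 he2
            rw [mem_insert] at he1
            rw [mem_erase] at he2
            rcases he1 with he1 | he1
            · exact he2.1 he1
            · exact h5 e he1 he2.2
          · intro A hA1 hA2
            have hA0 : Y ⊆ A := (subset_insert _ _).trans hA1
            have hA3 : A ⊆ Y ∪ U := by
              intro x hx
              have := hA2 hx
              rw [mem_union, mem_insert] at this
              rw [mem_union]
              rcases this with (rfl | hx) | hx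
              · exact Or.inr he
              · exact Or.inl hx
              · exact Or.inr (mem_of_mem_erase hx)
            rw [Function.iterate_succ_apply', h6 A hA0 hA3]
            simp only [hag A hA0 hA3]
      · refine ⟨U, Y, h1, h2, h3, by omega, insert (σ Q Y) Q, ?_, ?_⟩
        · intro e he1
          rw [mem_insert] at he1
          rcases he1 with rfl | he1
          · exact he
          · exact h5 e he1
        · intro A hA1 hA2
          rw [Function.iterate_succ_apply', h6 A hA1 hA2]
          simp only [hag A hA1 hA2]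
  obtain ⟨U, Y, h1, h2, h3, h4, Q, h5, h6⟩ := key (E0.card - 1) le_rfl
  obtain ⟨e, Y', h7, h8, h9⟩ := reduce Inv step (U.card - 1) U Y (by omega) h1
  obtain ⟨h10, h11⟩ := fin e Y' h7
  have h12 : Y ⊆ insert e Y' := h8.trans (subset_insert _ _)
  have h13 : Y' ⊆ Y ∪ U := (subset_insert _ _).trans h9
  have h14 : Y ∪ U ⊆ E0 := union_subset h3 h2
  refine ⟨insert e Y', Y', h9.trans h14, h13.trans h14, ?_, h10, h11⟩
  rw [h6 _ h12 h9]
  have hag : ∀ A, Y ⊆ A → A ⊆ Y ∪ U → ∀ x ∈ Q, (x ∈ A ↔ x ∈ Y) := by
    intro A hA1 hA2 x hx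
    constructor
    · intro h15
      rcases mem_union.1 (hA2 h15) with h16 | h16
      · exact h16
      · exact absurd h16 (h5 x hx)
    · intro h15
      exact hA1 h15
  intro x hx
  rw [hag _ h12 h9 x hx, hag _ h8 h13 x hx]

end

end Pool.Agent.L0h66.EV
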