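import Pool.Agent.L0h66.EV.Core

/-!
# Contracting an edge that closes a vertex cut
-/

set_option autoImplicit false
set_option linter.unusedSectionVars false
set_option linter.unusedVariables false

namespace Pool.Agent.L0h66.EV

open SimpleGraph

variable {V : Type} {r : ℕ}

/-- the label classes of `u` and `v` are merged -/
noncomputable def mg (c : V → V) (u v : V) (x : V) : V :=
  open Classical in if c x = c v then c u else c x

theorem mg_iff {c : V → V} {u v : V} (x y : V) : mg c u v x = mg c u v y ↔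
    c x = c y ∨ (c x = c u ∧ c y = c v) ∨ (c x = c v ∧ c y = c u) := by
  unfold mg
  by_cases h1 : c x = c v <;> by_cases h2 : c y = c v <;> grind

/-- In `G` without the class of `z` the only edge between `S` and the complement is `u v`. -/
structure Cut (G : SimpleGraph V) (c : V → V) (u v z : V) (S : Set V) : Prop where
  hu : c u ≠ c z
  hv : c v ≠ c z
  hus : u ∈ S
  hvs : v ∉ S
  cut : ∀ a b, c a ≠ c z → c b ≠ c z → a ∈ S → b ∉ S → G.Adj a b → a = u ∧ b = v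

theorem Cut.symm {G : SimpleGraph V} {c : V → V} {u v z : V} {S : Set V} (h : Cut G c u v z S) :
    Cut G c v u z Sᶜ where
  hu := h.hv
  hv := h.hu
  hus := h.hvs
  hvs := fun h1 => h1 h.hus
  cut := by
    intro a b ha hb has hbs hab
    have h1 := h.cut b a hb ha (not_not.1 hbs) has hab.symm
    exact ⟨h1.2, h1.1⟩

section

variable {w : Sym2 (Fin r) → ℕ} {G T : SimpleGraph V} {c : V → V} {u v z : V} {S : Set V}

theorem cls (h : St w G T c) (hT : ¬ T.Adj u v) (k : Cut G c u v z S) {x y : V}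
    (hxy : c x = c y) (hx : c x ≠ c z) : x ∈ S ↔ y ∈ S := by
  have key : ∀ x y, c x = c y → c x ≠ c z → x ∈ S → y ∈ S := by
    intro x y hxy hx hxS
    by_contra hyS
    obtain ⟨a, b, h1, h2, h3, h4, h5⟩ := h.cc x S ⟨x, rfl, hxS⟩ ⟨y, hxy.symm, hyS⟩
    obtain ⟨h6, h7⟩ := k.cut a b (fun h8 => hx (h1.symm.trans h8)) (fun h8 => hx (h2.symm.trans h8))
      h3 h4 (h.le h5)
    rw [h6, h7] at h5
    exact hT h5
  exact ⟨key x y hxy hx, key y x hxy.symm (fun h1 => hx (hxy.trans h1))⟩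

theorem cu_ne_cv (h : St w G T c) (huv : G.Adj u v) (hT : ¬ T.Adj u v) : c u ≠ c v :=
  h.nl u v huv hT

theorem sub (k : Cut G c u v z S) (h : St w G T c) (hT : ¬ T.Adj u v) (huv : G.Adj u v) {S' : Set V}
    (hD : ∀ x, c x = c z → x ∉ S')
    (hno : ∀ a b, c a ≠ c u → c a ≠ c v → c b ≠ c u → c b ≠ c v → a ∈ S' → b ∉ S' → ¬ G.Adj a b)
    {x : V} (hx : x ∈ S') (hxu : c x ≠ c u) (hxv : c x ≠ c v) (hxS : x ∈ S) : False := by
  obtain ⟨a, b, h1, h2, h3, h4, h5⟩ := h.two u (S' ∩ S ∩ {x | c x ≠ c v})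
    ⟨x, hxu, ⟨hx, hxS⟩, hxv⟩ ⟨z, fun h1 => k.hu h1.symm, fun h1 => hD z rfl h1.1.1⟩
  obtain ⟨⟨h6, h7⟩, h8⟩ := h3
  have haz : c a ≠ c z := fun h9 => hD a h9 h6
  have hau : a ≠ u := fun h9 => h1 (by rw [h9])
  by_cases hbv : c b = c v
  · have hbz : c b ≠ c z := fun h9 => k.hv (hbv.symm.trans h9)
    have hbS : b ∉ S := fun h9 => k.hvs ((cls h hT k hbv hbz).1 h9)
    exact hau (k.cut a b haz hbz h7 hbS h5).1
  · by_cases hbS' : b ∈ S'
    · have hbS : b ∉ S := fun h9 => h4 ⟨⟨hbS', h9⟩, hbv⟩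
      have hbz : c b ≠ c z := fun h9 => hD b h9 hbS'
      exact hau (k.cut a b haz hbz h7 hbS h5).1
    · exact hno a b h1 h8 h2 hbv h6 hbS' h5

theorem two_merge (k : Cut G c u v z S) (h : St w G T c) (hT : ¬ T.Adj u v) (huv : G.Adj u v) :
    CutConn G {x | c x ≠ c u ∧ c x ≠ c v} := by
  intro S' ⟨x, hx, hxS'⟩ ⟨y, hy, hyS'⟩
  by_contra hno
  push Not at hno
  have hno1 : ∀ a b, c a ≠ c u → c a ≠ c v → c b ≠ c u → c b ≠ c v → a ∈ S' → b ∉ S' →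
      ¬ G.Adj a b := fun a b h1 h2 h3 h4 h5 h6 => hno a b ⟨h1, h2⟩ ⟨h3, h4⟩ h5 h6
  have hno2 : ∀ a b, c a ≠ c v → c a ≠ c u → c b ≠ c v → c b ≠ c u → a ∈ S' → b ∉ S' →
      ¬ G.Adj a b := fun a b h1 h2 h3 h4 h5 h6 => hno a b ⟨h2, h1⟩ ⟨h4, h3⟩ h5 h6
  have hno3 : ∀ a b, c a ≠ c u → c a ≠ c v → c b ≠ c u → c b ≠ c v → a ∈ S'ᶜ → b ∉ S'ᶜ →
      ¬ G.Adj a b := fun a b h1 h2 h3 h4 h5 h6 h7 =>
    hno b a ⟨h3, h4⟩ ⟨h1, h2⟩ (not_not.1 h6) h5 h7.symm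
  have hno4 : ∀ a b, c a ≠ c v → c a ≠ c u → c b ≠ c v → c b ≠ c u → a ∈ S'ᶜ → b ∉ S'ᶜ →
      ¬ G.Adj a b := fun a b h1 h2 h3 h4 h5 h6 h7 =>
    hno b a ⟨h4, h3⟩ ⟨h2, h1⟩ (not_not.1 h6) h5 h7.symm
  have hT' : ¬ T.Adj v u := fun h1 => hT h1.symm
  by_cases hD : ∀ x, c x = c z → x ∉ S'
  · by_cases hxS : x ∈ S
    · exact sub k h hT huv hD hno1 hxS' hx.1 hx.2 hxS
    · exact sub k.symm h hT' huv.symm hD hno2 hxS' hx.2 hx.1 hxS
  · have hD' : ∀ x, c x = c z → x ∉ S'ᶜ := by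
      intro x' hx' hx's
      push Not at hD
      obtain ⟨y', hy', hy's⟩ := hD
      obtain ⟨a, b, h1, h2, h3, h4, h5⟩ := h.cc z S' ⟨y', hy', hy's⟩ ⟨x', hx', hx's⟩
      change c a = c z at h1
      change c b = c z at h2
      exact hno a b ⟨fun h6 => k.hu (h6.symm.trans h1), fun h6 => k.hv (h6.symm.trans h1)⟩
        ⟨fun h6 => k.hu (h6.symm.trans h2), fun h6 => k.hv (h6.symm.trans h2)⟩ h3 h4 (h.le h5)
    by_cases hyS : y ∈ S
    · exact sub k h hT huv hD' hno3 hyS' hy.1 hy.2 hyS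
    · exact sub k.symm h hT' huv.symm hD' hno4 hyS' hy.2 hy.1 hyS

end

end Pool.Agent.L0h66.EV
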