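import Mathlib

/-!
# The invariant of the adversary: contracted, critical and unqueried edges
-/

set_option autoImplicit false
set_option linter.unusedSectionVars false
set_option linter.unusedVariables false

namespace Pool.Agent.L0h66.EV

open SimpleGraph

variable {V : Type} {r : ℕ}

/-- The graph `G` is connected on the vertex set `A`, in terms of cuts. -/
def CutConn (G : SimpleGraph V) (A : Set V) : Prop :=
  ∀ S : Set V, (∃ x ∈ A, x ∈ S) → (∃ y ∈ A, y ∉ S) → ∃ a b, a ∈ A ∧ b ∈ A ∧ a ∈ S ∧ b ∉ S ∧ G.Adj a b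

/-- The edges of `G` of type `p` with respect to `b`. -/
def cr (G : SimpleGraph V) (b : V → Fin r) (p : Sym2 (Fin r)) : Set (Sym2 V) :=
  {e | e ∈ G.edgeSet ∧ e.map b = p}

/-- A spanning model of the weighted pattern `w` in `G`. -/
structure Model (w : Sym2 (Fin r) → ℕ) (G : SimpleGraph V) (b : V → Fin r) : Prop where
  surj : ∀ i, ∃ x, b x = i
  conn : ∀ i, CutConn G {x | b x = i}
  cnt : ∀ p, ¬ p.IsDiag → w p ≤ (cr G b p).ncard

/-- A spanning model that does not separate vertices with the same label. -/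
def RM (w : Sym2 (Fin r) → ℕ) (G : SimpleGraph V) (c : V → V) : Prop :=
  ∃ b : V → Fin r, Model w G b ∧ ∀ x y, c x = c y → b x = b y

/-- The conditions on the pattern. -/
structure Pat (w : Sym2 (Fin r) → ℕ) : Prop where
  con : ∀ i, ∀ K : Set (Fin r), (∃ k, k ∈ K ∧ k ≠ i) → (∃ l, l ∉ K ∧ l ≠ i) →
    ∃ k l, k ∈ K ∧ k ≠ i ∧ l ∉ K ∧ l ≠ i ∧ 0 < w s(k, l)
  exch : ∀ p₁ : Sym2 (Fin r), ¬ p₁.IsDiag → ∃ σ : Equiv.Perm (Fin r), ∃ p₀ : Sym2 (Fin r),
    ¬ p₀.IsDiag ∧ 0 < w p₀ ∧ ∀ p, ¬ p.IsDiag →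
      w p + (if p.map σ = p₀ then 1 else 0) ≤ w (p.map σ) + (if p.map σ = p₁ then 1 else 0)
  tot : 2 ≤ ∑ p with ¬ Sym2.IsDiag p, w p

theorem CutConn.mono {G H : SimpleGraph V} {A : Set V} (h : CutConn G A) (hle : G ≤ H) :
    CutConn H A := by
  intro S h1 h2
  obtain ⟨a, b, h3, h4, h5, h6, h7⟩ := h S h1 h2
  exact ⟨a, b, h3, h4, h5, h6, hle h7⟩

theorem cr_mono {G H : SimpleGraph V} (hle : G ≤ H) (b : V → Fin r) (p : Sym2 (Fin r)) :
    cr G b p ⊆ cr H b p := fun _ he => ⟨edgeSet_mono hle he.1, he.2⟩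

theorem Model.mono [Finite V] {w : Sym2 (Fin r) → ℕ} {G H : SimpleGraph V} {b : V → Fin r}
    (h : Model w G b) (hle : G ≤ H) : Model w H b :=
  ⟨h.surj, fun i => (h.conn i).mono hle,
    fun p hp => (h.cnt p hp).trans (Set.ncard_le_ncard (cr_mono hle b p) (Set.toFinite _))⟩

theorem RM.mono [Finite V] {w : Sym2 (Fin r) → ℕ} {G H : SimpleGraph V} {c : V → V}
    (h : RM w G c) (hle : G ≤ H) : RM w H c := by
  obtain ⟨b, h1, h2⟩ := h
  exact ⟨b, h1.mono hle, h2⟩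

/-- without one class of a model the rest is connected -/
theorem Model.rest [Finite V] {w : Sym2 (Fin r) → ℕ} (hw : Pat w) {G : SimpleGraph V}
    {b : V → Fin r} (h : Model w G b) (i : Fin r) : CutConn G {x | b x ≠ i} := by
  intro S ⟨x, hx, hxS⟩ ⟨y, hy, hyS⟩
  by_cases hst : ∃ k, k ≠ i ∧ (∃ x, b x = k ∧ x ∈ S) ∧ (∃ y, b y = k ∧ y ∉ S)
  · obtain ⟨k, hk, ⟨x', hx', hx's⟩, ⟨y', hy', hy's⟩⟩ := hst
    obtain ⟨p, q, h1, h2, h3, h4, h5⟩ := h.conn k S ⟨x', hx', hx's⟩ ⟨y', hy', hy's⟩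
    exact ⟨p, q, fun h6 => hk (h1.symm.trans h6), fun h6 => hk (h2.symm.trans h6), h3, h4, h5⟩
  · push Not at hst
    obtain ⟨k, l, hk, hki, hl, hli, hw0⟩ := hw.con i {k | ∃ x, b x = k ∧ x ∈ S}
      ⟨b x, ⟨x, rfl, hxS⟩, hx⟩ ⟨b y, fun ⟨x', hx', hx's⟩ => hyS (hst (b y) hy ⟨x', hx', hx's⟩ y rfl), hy⟩
    have hkl : k ≠ l := fun h1 => hl (h1 ▸ hk)
    have h1 := h.cnt s(k, l) (by simpa using hkl)
    have h2 : (cr G b s(k, l)).Nonempty := by
      rw [← Set.ncard_pos (Set.toFinite _)]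
      omega
    obtain ⟨e, he, hm⟩ := h2
    induction e using Sym2.ind with
    | _ p q =>
      rw [Sym2.map_mk, Sym2.eq_iff] at hm
      rw [mem_edgeSet] at he
      have hall : ∀ x, b x = k → x ∈ S := fun x hx => hst k hki hk x hx
      have hall' : ∀ x, b x = l → x ∉ S := fun x hx hxs => hl ⟨x, hx, hxs⟩
      rcases hm with ⟨h3, h4⟩ | ⟨h3, h4⟩
      · exact ⟨p, q, fun h5 => hki (h3.symm.trans h5), fun h5 => hli (h4.symm.trans h5),
          hall p h3, hall' q h4, he⟩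
      · exact ⟨q, p, fun h5 => hki (h4.symm.trans h5), fun h5 => hli (h3.symm.trans h5),
          hall q h4, hall' p h3, he.symm⟩

/-- The state: `G` is the graph of the edges that are not excluded, `T` the forest of the contracted
edges, and `c` is constant exactly on the components of `T`. -/
structure St (w : Sym2 (Fin r) → ℕ) (G T : SimpleGraph V) (c : V → V) : Prop where
  le : T ≤ G
  tc : ∀ x y, T.Adj x y → c x = c y
  cc : ∀ z, CutConn T {x | c x = c z}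
  nl : ∀ x y, G.Adj x y → ¬ T.Adj x y → c x ≠ c y
  ac : T.IsAcyclic
  two : ∀ z, CutConn G {x | c x ≠ c z}
  mod : RM w G c

/-- deleting an edge -/
theorem St.delete {w : Sym2 (Fin r) → ℕ} {G T : SimpleGraph V} {c : V → V} (h : St w G T c)
    {e : Sym2 V} (he : e ∉ T.edgeSet) (h1 : RM w (G.deleteEdges {e}) c)
    (h2 : ∀ z, CutConn (G.deleteEdges {e}) {x | c x ≠ c z}) : St w (G.deleteEdges {e}) T c where
  le := by
    intro x y hxy
    rw [deleteEdges_adj]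
    exact ⟨h.le hxy, fun h3 => he (by rw [← Set.mem_singleton_iff.1 h3]; exact hxy)⟩
  tc := h.tc
  cc := h.cc
  nl := fun x y hxy => h.nl x y (deleteEdges_le _ hxy)
  ac := h.ac
  two := h2
  mod := h1

end Pool.Agent.L0h66.EV
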