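import Pool.Agent.L0h66.EV.Final

/-!
# Counting the edges at the end of the game
-/

set_option autoImplicit false
set_option linter.unusedSectionVars false
set_option linter.unusedVariables false

namespace Pool.Agent.L0h66.EV

open SimpleGraph

variable {V : Type} {r : ℕ}

open Classical in
/-- a forest with edges inside the classes of a function has few edges -/
theorem forest_count [Finite V] [Nonempty V] : ∀ (m : ℕ) (F : SimpleGraph V), F.IsAcyclic →
    ∀ b : V → ℕ, (∀ x y, F.Adj x y → b x = b y) → (Set.range b).ncard = m + 1 →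
    F.edgeSet.ncard + (m + 1) ≤ Nat.card V := by
  intro m
  induction m with
  | zero =>
    intro F hF b _ _
    obtain ⟨F', h1, -, h2⟩ := (connected_top (V := V)).exists_isTree_le_of_le_of_isAcyclic
      (le_top (a := F)) hF
    have h3 := (isTree_iff_connected_and_card.1 h2).2
    have h4 : F.edgeSet.ncard ≤ F'.edgeSet.ncard :=
      Set.ncard_le_ncard (edgeSet_mono h1) (Set.toFinite _)
    rw [Nat.card_coe_set_eq] at h3
    omega
  | succ m ih =>
    intro F hF b hb hr
    obtain ⟨x, y, hxy⟩ : ∃ x y, b x ≠ b y := by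
      by_contra hno
      push Not at hno
      obtain ⟨x⟩ := ‹Nonempty V›
      have h1 : Set.range b = {b x} := by
        ext k
        constructor
        · rintro ⟨y, rfl⟩
          exact hno y x
        · rintro rfl
          exact ⟨x, rfl⟩
      rw [h1, Set.ncard_singleton] at hr
      omega
    have hnr : ¬ F.Reachable x y := by
      rintro ⟨p⟩
      have : ∀ {x y : V} (p : F.Walk x y), b x = b y := by
        intro x y p
        induction p with
        | nil => rfl
        | cons h1 _ ih => exact (hb _ _ h1).trans ih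
      exact hxy (this p)
    have hne : x ≠ y := fun h => hxy (by rw [h])
    have h1 := ih (F ⊔ edge x y) (hF.sup_edge_of_not_reachable hnr)
      (fun z => if b z = b y then b x else b z) ?_ ?_
    · have h2 : (F ⊔ edge x y).edgeSet = insert s(x, y) F.edgeSet := by
        ext e
        induction e using Sym2.ind with
        | _ p q =>
          rw [mem_edgeSet, sup_adj, edge_adj, Set.mem_insert_iff, mem_edgeSet, Sym2.eq_iff]
          constructor
          · rintro (h3 | ⟨h3, -⟩)
            · exact Or.inr h3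
            · exact Or.inl h3
          · rintro (h3 | h3)
            · refine Or.inr ⟨h3, ?_⟩
              rcases h3 with ⟨rfl, rfl⟩ | ⟨rfl, rfl⟩
              · exact hne
              · exact hne.symm
            · exact Or.inl h3
      have h4 : s(x, y) ∉ F.edgeSet := fun h3 => hnr (Adj.reachable ((mem_edgeSet F).1 h3))
      rw [h2, Set.ncard_insert_of_notMem h4 (Set.toFinite _)] at h1
      omega
    · intro p q hpq
      rw [sup_adj, edge_adj] at hpq
      rcases hpq with h2 | ⟨⟨rfl, rfl⟩ | ⟨rfl, rfl⟩, -⟩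
      · simp only [hb p q h2]
      · simp [hxy]
      · simp [hxy]
    · have h2 : Set.range (fun z => if b z = b y then b x else b z) = Set.range b \ {b y} := by
        ext k
        constructor
        · rintro ⟨z, rfl⟩
          by_cases h3 : b z = b y
          · simp only [h3, if_true]
            exact ⟨⟨x, rfl⟩, hxy⟩
          · simp only [h3, if_false]
            exact ⟨⟨z, rfl⟩, h3⟩
        · rintro ⟨⟨z, rfl⟩, h3⟩
          exact ⟨z, if_neg h3⟩
      rw [h2, Set.ncard_sdiff_singleton_of_mem (Set.mem_range_self y), hr]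
      rfl

open Classical in
theorem edge_count [Finite V] (G : SimpleGraph V) (b : V → Fin r) :
    G.edgeSet.ncard ≤ (fib G b).edgeSet.ncard + ∑ p with ¬ Sym2.IsDiag p, (cr G b p).ncard := by
  have := Fintype.ofFinite V
  set E : Finset (Sym2 V) := (Set.toFinite G.edgeSet).toFinset with hE
  have h1 : G.edgeSet.ncard = E.card := Set.ncard_eq_toFinset_card _ _
  have h2 : E.card = (E.filter (fun e => (e.map b).IsDiag)).card +
      (E.filter (fun e => ¬ (e.map b).IsDiag)).card := by
    rw [Finset.card_filter_add_card_filter_not]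
  have h3 : (E.filter (fun e => (e.map b).IsDiag)).card ≤ (fib G b).edgeSet.ncard := by
    rw [← Set.ncard_coe_finset]
    apply Set.ncard_le_ncard _ (Set.toFinite _)
    intro e he
    rw [Finset.mem_coe, Finset.mem_filter, hE, Set.Finite.mem_toFinset] at he
    induction e using Sym2.ind with
    | _ x y =>
      rw [Sym2.map_mk, Sym2.mk_isDiag_iff] at he
      exact he
  have h4 : (E.filter (fun e => ¬ (e.map b).IsDiag)).card =
      ∑ p with ¬ Sym2.IsDiag p, (cr G b p).ncard := by
    rw [Finset.card_eq_sum_card_fiberwise (f := fun e => e.map b)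
      (t := Finset.univ.filter (fun p : Sym2 (Fin r) => ¬ p.IsDiag))]
    · refine Finset.sum_congr rfl fun p hp => ?_
      rw [Finset.mem_filter] at hp
      rw [← Set.ncard_coe_finset]
      congr 1
      ext e
      rw [Finset.mem_coe, Finset.mem_filter, Finset.mem_filter, hE, Set.Finite.mem_toFinset]
      constructor
      · rintro ⟨⟨k1, -⟩, k2⟩
        exact ⟨k1, k2⟩
      · rintro ⟨k1, k2⟩
        exact ⟨⟨k1, by rw [k2]; exact hp.2⟩, k2⟩
    · intro e he
      rw [Finset.mem_coe, Finset.mem_filter] at he
      simp only [Finset.coe_filter, Finset.mem_univ, true_and]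
      exact he.2
  omega

section

variable {w : Sym2 (Fin r) → ℕ} {G T : SimpleGraph V} {c : V → V} {u v : V}

/-- deleting an edge between two classes -/
theorem Model.del_cr [Finite V] {b : V → Fin r} (hb : Model w G b) {e : Sym2 V}
    {p : Sym2 (Fin r)} (hp : ¬ p.IsDiag) (he : e ∈ cr G b p) (hlt : w p < (cr G b p).ncard) :
    Model w (G.deleteEdges {e}) b := by
  refine ⟨hb.surj, ?_, ?_⟩
  · intro i S hS1 hS2
    obtain ⟨a, d, k1, k2, k3, k4, k5⟩ := hb.conn i S hS1 hS2
    refine ⟨a, d, k1, k2, k3, k4, ?_⟩
    rw [deleteEdges_adj]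
    refine ⟨k5, fun k6 => hp ?_⟩
    rw [← he.2, ← Set.mem_singleton_iff.1 k6, Sym2.map_mk]
    exact Sym2.mk_isDiag_iff.2 ((show b a = i from k1).trans (show b d = i from k2).symm)
  · intro q hq
    by_cases hqp : q = p
    · subst hqp
      have h1 : cr (G.deleteEdges {e}) b q = cr G b q \ {e} := by
        ext f
        unfold cr
        simp only [Set.mem_ofPred_eq, edgeSet_deleteEdges, Set.mem_sdiff]
        tauto
      rw [h1, Set.ncard_sdiff_singleton_of_mem he]
      omega
    · refine (hb.cnt q hq).trans (Set.ncard_le_ncard ?_ (Set.toFinite _))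
      rintro f ⟨k1, k2⟩
      refine ⟨?_, k2⟩
      rw [edgeSet_deleteEdges]
      refine ⟨k1, fun k3 => hqp ?_⟩
      rw [← k2, Set.mem_singleton_iff.1 k3, he.2]

/-- (ii) the number of the edges at the end -/
theorem count_end [Finite V] (hw : Pat w) (h : St w G T c)
    (hcr : ∀ e ∈ G.edgeSet, e ∉ T.edgeSet → ¬ RM w (G.deleteEdges {e}) c) :
    G.edgeSet.ncard + r ≤ Nat.card V + ∑ p with ¬ Sym2.IsDiag p, w p := by
  obtain ⟨b, hb, hc⟩ := h.mod
  have hTb : ∀ e ∈ T.edgeSet, (e.map b).IsDiag := by
    intro e he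
    induction e using Sym2.ind with
    | _ x y =>
      rw [Sym2.map_mk, Sym2.mk_isDiag_iff]
      exact hc x y (h.tc x y he)
  have hac : (fib G b).IsAcyclic := by
    intro x p hp
    obtain ⟨e, he, heT⟩ := exists_not_mem h.ac hp
    have he1 := p.edges_subset_edgeSet he
    induction e using Sym2.ind with
    | _ a d =>
      rw [mem_edgeSet] at he1
      exact hcr s(a, d) he1.1 heT ⟨b, Model.del_fib hb.surj (conn_iff.1 hb.conn) hb.cnt he1
        (fun h3 => h3.notMem_edges_of_isCycle hp he), hc⟩
  have hle : ∀ p : Sym2 (Fin r), ¬ p.IsDiag → (cr G b p).ncard ≤ w p := by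
    intro p hp
    by_contra hlt
    push Not at hlt
    have h1 : (cr G b p).Nonempty := by
      rw [← Set.ncard_pos (Set.toFinite _)]
      omega
    obtain ⟨e, he⟩ := h1
    refine hcr e he.1 (fun h2 => hp ?_) ⟨b, hb.del_cr hp he hlt, hc⟩
    rw [← he.2]
    exact hTb e h2
  have hr : 0 < r := by
    by_contra h0
    have h1 := hw.tot
    have : IsEmpty (Fin r) := by
      rw [not_lt, Nat.le_zero] at h0
      rw [h0]
      infer_instance
    rw [Finset.sum_eq_zero] at h1
    · omega
    · intro p _
      induction p using Sym2.ind with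
      | _ i j => exact isEmptyElim i
  have hne : Nonempty V := by
    obtain ⟨x, -⟩ := hb.surj ⟨0, hr⟩
    exact ⟨x⟩
  have hrange : (Set.range (fun x => (b x : ℕ))).ncard = (r - 1) + 1 := by
    have h1 : Set.range (fun x => (b x : ℕ)) = Set.range (fun i : Fin r => (i : ℕ)) := by
      ext k
      constructor
      · rintro ⟨x, rfl⟩
        exact ⟨b x, rfl⟩
      · rintro ⟨i, rfl⟩
        obtain ⟨x, hx⟩ := hb.surj i
        exact ⟨x, by simp only [hx]⟩
    rw [h1, ← Set.image_univ, Set.ncard_image_of_injective _ Fin.val_injective, Set.ncard_univ,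
      Nat.card_eq_fintype_card, Fintype.card_fin]
    omega
  have h1 := forest_count (r - 1) (fib G b) hac (fun x => (b x : ℕ))
    (fun x y hxy => by simp only [hxy.2]) hrange
  have h2 := edge_count G b
  have h3 : ∑ p with ¬ Sym2.IsDiag p, (cr G b p).ncard ≤ ∑ p with ¬ Sym2.IsDiag p, w p :=
    Finset.sum_le_sum fun p hp => hle p (Finset.mem_filter.1 hp).2
  omega

/-- (iii) The graph without the last edge is connected. -/
theorem conn_end [Finite V] (hw : Pat w) (h : St w G T c) (huv : G.Adj u v)
    (hT : ¬ T.Adj u v) : CutConn (G.deleteEdges {s(u, v)}) Set.univ := by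
  rintro S ⟨x, -, hxS⟩ ⟨y, -, hyS⟩
  by_contra hno
  push Not at hno
  have hno' : ∀ a d, a ∈ S → d ∉ S → G.Adj a d → s(a, d) = s(u, v) := by
    intro a d ha hd had
    by_contra hne
    exact hno a d trivial trivial ha hd (by rw [deleteEdges_adj]; exact ⟨had, hne⟩)
  have hcuv : c u ≠ c v := cu_ne_cv h huv hT
  -- label classes are on one side
  have hcls : ∀ x y, c x = c y → x ∈ S → y ∈ S := by
    intro x y hxy hxS
    by_contra hyS
    obtain ⟨a, d, h1, h2, h3, h4, h5⟩ := h.cc x S ⟨x, rfl, hxS⟩ ⟨y, hxy.symm, hyS⟩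
    have h6 := hno' a d h3 h4 (h.le h5)
    rw [Sym2.eq_iff] at h6
    rcases h6 with ⟨rfl, rfl⟩ | ⟨rfl, rfl⟩
    · exact hT h5
    · exact hT h5.symm
  by_cases hz : ∃ z, c z ≠ c u ∧ c z ≠ c v
  · obtain ⟨z, hzu, hzv⟩ := hz
    have key : ∀ q, (q = u ∨ q = v) → ∀ x y, c x ≠ c q → c y ≠ c q → x ∈ S → y ∈ S := by
      intro q hq x y hx hy hxS
      by_contra hyS
      obtain ⟨a, d, h1, h2, h3, h4, h5⟩ := h.two q S ⟨x, hx, hxS⟩ ⟨y, hy, hyS⟩
      have h6 := hno' a d h3 h4 h5
      rw [Sym2.eq_iff] at h6
      rcases hq with rfl | rfl <;> rcases h6 with ⟨rfl, rfl⟩ | ⟨rfl, rfl⟩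
      · exact h1 rfl
      · exact h2 rfl
      · exact h2 rfl
      · exact h1 rfl
    have hzS : z ∈ S := by
      by_cases hxu : c x = c u
      · exact key v (Or.inr rfl) x z (fun h1 => hcuv (hxu.symm.trans h1)) hzv hxS
      · exact key u (Or.inl rfl) x z hxu hzu hxS
    by_cases hyu : c y = c u
    · exact hyS (key v (Or.inr rfl) z y hzv (fun h1 => hcuv (hyu.symm.trans h1)) hzS)
    · exact hyS (key u (Or.inl rfl) z y hzu hyu hzS)
  · push Not at hz
    obtain ⟨b, hb, hc⟩ := h.mod
    have hall : ∀ z, c z = c u ∨ c z = c v := by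
      intro z
      by_cases h1 : c z = c u
      · exact Or.inl h1
      · exact Or.inr (hz z h1)
    have hball : ∀ i, i = b u ∨ i = b v := by
      intro i
      obtain ⟨z, rfl⟩ := hb.surj i
      rcases hall z with h1 | h1
      · exact Or.inl (hc z u h1)
      · exact Or.inr (hc z v h1)
    have h1 : (Finset.univ.filter (fun p : Sym2 (Fin r) => ¬ p.IsDiag)) ⊆ {s(b u, b v)} := by
      intro p hp
      rw [Finset.mem_filter] at hp
      rw [Finset.mem_singleton]
      induction p using Sym2.ind with
      | _ i j =>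
        have h2 := hp.2
        rw [Sym2.mk_isDiag_iff] at h2
        rcases hball i with rfl | rfl <;> rcases hball j with rfl | rfl
        · exact absurd rfl h2
        · rfl
        · exact Sym2.eq_swap
        · exact absurd rfl h2
    have h2 : 2 ≤ w s(b u, b v) := by
      refine hw.tot.trans ?_
      refine (Finset.sum_le_sum_of_subset h1).trans ?_
      rw [Finset.sum_singleton]
    have hbne : b u ≠ b v := by
      intro h3
      have h4 : (Finset.univ.filter (fun p : Sym2 (Fin r) => ¬ p.IsDiag)) = ∅ := by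
        rw [Finset.eq_empty_iff_forall_notMem]
        intro p hp
        have h5 := Finset.mem_singleton.1 (h1 hp)
        rw [Finset.mem_filter, h5, h3] at hp
        exact hp.2 (Sym2.mk_isDiag_iff.2 rfl)
      have h5 := hw.tot
      rw [h4, Finset.sum_empty] at h5
      omega
    have h3 := hb.cnt s(b u, b v) (by simpa using hbne)
    obtain ⟨e, he, hne⟩ := Set.exists_ne_of_one_lt_ncard (s := cr G b s(b u, b v)) (by omega) s(u, v)
    induction e using Sym2.ind with
    | _ a d =>
      obtain ⟨he1, he2⟩ := he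
      rw [Sym2.map_mk, Sym2.eq_iff] at he2
      rw [mem_edgeSet] at he1
      have hlab : ∀ z, (b z = b u → c z = c u) ∧ (b z = b v → c z = c v) := by
        intro z
        rcases hall z with h4 | h4
        · exact ⟨fun _ => h4, fun h5 => absurd ((hc z u h4).symm.trans h5) hbne⟩
        · exact ⟨fun h5 => absurd (h5.symm.trans (hc z v h4)) hbne, fun _ => h4⟩
      -- the class of `u` is on one side, the class of `v` on the other side
      have hor : (u ∈ S ∧ v ∉ S) ∨ (u ∉ S ∧ v ∈ S) := by
        rcases hall x with h4 | h4 <;> rcases hall y with h5 | h5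
        · exact absurd (hcls x y (h4.trans h5.symm) hxS) hyS
        · exact Or.inl ⟨hcls x u h4 hxS, fun h6 => hyS (hcls v y h5.symm h6)⟩
        · exact Or.inr ⟨fun h6 => hyS (hcls u y h5.symm h6), hcls x v h4 hxS⟩
        · exact absurd (hcls x y (h4.trans h5.symm) hxS) hyS
      have had : ∀ a d, G.Adj a d → s(a, d) ≠ s(u, v) → b a = b u → b d = b v → False := by
        intro a d had hne ha hd
        have k1 := (hlab a).1 ha
        have k2 := (hlab d).2 hd
        rcases hor with ⟨k3, k4⟩ | ⟨k3, k4⟩
        · exact hne (hno' a d (hcls u a k1.symm k3) (fun k5 => k4 (hcls d v k2 k5)) had)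
        · apply hne
          rw [Sym2.eq_swap (a := a), ← hno' d a (hcls v d k2.symm k4) (fun k5 => k3 (hcls a u k1 k5)) had.symm]
      rcases he2 with ⟨k1, k2⟩ | ⟨k1, k2⟩
      · exact had a d he1 hne k1 k2
      · exact had d a he1.symm (by rwa [Sym2.eq_swap]) k2 k1

end

end Pool.Agent.L0h66.EV
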