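import Pool.Agent.L0h66.EV.Pats

/-!
# The cyclomatic number of a graph with a given minor
-/

set_option autoImplicit false
set_option linter.unusedSectionVars false
set_option linter.unusedVariables false

namespace Pool.Agent.L0h66.EV

open SimpleGraph

variable {V : Type} {r : ℕ}

/-- A graph with the pattern `w` as a minor has cyclomatic number at least `∑ w - r + 1`. -/
theorem cyc_of_minor [Finite V] {w : Sym2 (Fin r) → ℕ} (hr : 0 < r) {H : SimpleGraph V}
    (h : HasMinor w H) : Nat.card V + (∑ p with ¬ Sym2.IsDiag p, w p) + 1 ≤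
      H.edgeSet.ncard + Nat.card H.ConnectedComponent + r := by
  classical
  obtain ⟨B, h1, h2, h3⟩ := h
  have hfinc : Finite H.ConnectedComponent := Quot.finite _
  -- labels
  set β : V → Option (Fin r) := fun x => if hx : ∃ i, x ∈ B i then some (Classical.choose hx) else none
    with hβ
  have hβi : ∀ x i, β x = some i ↔ x ∈ B i := by
    intro x i
    constructor
    · intro h4
      by_cases hx : ∃ i, x ∈ B i
      · have h5 : β x = some (Classical.choose hx) := dif_pos hx
        rw [h5, Option.some_inj] at h4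
        rw [← h4]
        exact Classical.choose_spec hx
      · have h5 : β x = none := dif_neg hx
        rw [h5] at h4
        exact absurd h4 (by simp)
    · intro h4
      have hx : ∃ i, x ∈ B i := ⟨i, h4⟩
      have h5 : β x = some (Classical.choose hx) := dif_pos hx
      rw [h5, Option.some_inj]
      by_contra hne
      exact Set.disjoint_left.1 (h2 _ _ hne) (Classical.choose_spec hx) h4
  -- the edges between different branch sets
  set D : Set (Sym2 V) := {e | e ∈ H.edgeSet ∧ ∃ i j, i ≠ j ∧ e.map β = s(some i, some j)} with hD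
  have hDmem : ∀ x y, H.Adj x y → s(x, y) ∉ D → ∀ i, x ∈ B i → ∀ j, y ∈ B j → i = j := by
    intro x y hxy hnD i hi j hj
    by_contra hne
    exact hnD ⟨hxy, i, j, hne, by rw [Sym2.map_mk, (hβi x i).2 hi, (hβi y j).2 hj]⟩
  set H' := H.deleteEdges D with hH'
  have hH'adj : ∀ {x y}, H'.Adj x y ↔ H.Adj x y ∧ s(x, y) ∉ D := by
    intro x y
    rw [hH', deleteEdges_adj]
  have hcount : H'.edgeSet.ncard + ∑ p with ¬ Sym2.IsDiag p, w p ≤ H.edgeSet.ncard := by
    have h4 : H.edgeSet.ncard = H'.edgeSet.ncard + D.ncard := by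
      rw [hH', edgeSet_deleteEdges]
      have h5 : D ⊆ H.edgeSet := fun e he => he.1
      rw [Set.ncard_sdiff_add_ncard_of_subset h5 (Set.toFinite _)]
    have h5 : ∑ p with ¬ Sym2.IsDiag p, w p ≤ D.ncard := by
      have h6 : ∀ p ∈ (Finset.univ.filter (fun p : Sym2 (Fin r) => ¬ p.IsDiag)), w p ≤
          ((Set.toFinite D).toFinset.filter (fun e => e.map β = p.map some)).card := by
        intro p hp
        rw [Finset.mem_filter] at hp
        induction p using Sym2.ind with
        | _ i j =>
          have hij : i ≠ j := fun h7 => hp.2 (Sym2.mk_isDiag_iff.2 h7)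
          refine (h3 i j hij).trans ?_
          rw [← Set.ncard_coe_finset]
          refine Set.ncard_le_ncard ?_ (Set.toFinite _)
          rintro e ⟨k1, x, hx, y, hy, rfl⟩
          rw [Finset.mem_coe, Finset.mem_filter, Set.Finite.mem_toFinset]
          have k2 : (s(x, y)).map β = s(some i, some j) := by
            rw [Sym2.map_mk, (hβi x i).2 hx, (hβi y j).2 hy]
          exact ⟨⟨k1, i, j, hij, k2⟩, k2⟩
      refine (Finset.sum_le_sum h6).trans ?_
      have h7 : D.ncard = (Set.toFinite D).toFinset.card := Set.ncard_eq_toFinset_card _ _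
      rw [h7]
      have h8 : ∑ p with ¬ Sym2.IsDiag p,
          ((Set.toFinite D).toFinset.filter (fun e => e.map β = p.map some)).card =
          ∑ q ∈ (Finset.univ.filter (fun p : Sym2 (Fin r) => ¬ p.IsDiag)).image (Sym2.map some),
            ((Set.toFinite D).toFinset.filter (fun e => e.map β = q)).card := by
        rw [Finset.sum_image]
        intro p _ q _ hpq
        exact Sym2.map.injective (Option.some_injective _) hpq
      rw [h8, ← Finset.card_eq_sum_card_fiberwise]
      intro e he
      rw [Finset.mem_coe, Set.Finite.mem_toFinset] at he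
      obtain ⟨-, i, j, hij, he⟩ := he
      rw [Finset.mem_coe, Finset.mem_image]
      refine ⟨s(i, j), ?_, by rw [Sym2.map_mk]; exact he.symm⟩
      rw [Finset.mem_filter]
      exact ⟨Finset.mem_univ _, by simpa using hij⟩
    omega
  -- a connected graph
  have hne : ∀ a, ∃ x, x ∈ B a := by
    intro a
    obtain ⟨⟨x, hx⟩⟩ := (h1 a).nonempty
    exact ⟨x, hx⟩
  choose v hv using hne
  set i0 : Fin r := ⟨0, hr⟩ with hi0
  have hvne : ∀ i, i ≠ i0 → v i0 ≠ v i := by
    intro i hi h4
    exact Set.disjoint_left.1 (h2 _ _ hi) (hv i) (h4 ▸ hv i0)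
  have hrep : ∀ C : H.ConnectedComponent, ∃ x, H.connectedComponentMk x = C := by
    intro C
    induction C using ConnectedComponent.ind with
    | _ x => exact ⟨x, rfl⟩
  choose rep hrep using hrep
  set A1 : Set (Sym2 V) := (fun i => s(v i0, v i)) '' {i | i ≠ i0} with hA1
  set A2 : Set (Sym2 V) := (fun C => s(v i0, rep C)) '' {C | C ≠ H.connectedComponentMk (v i0)}
    with hA2
  set Gp : SimpleGraph V := H' ⊔ fromEdgeSet (A1 ∪ A2) with hGp
  have hH'le : H' ≤ Gp := le_sup_left
  have hc1 : A1.ncard ≤ r - 1 := by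
    refine (Set.ncard_image_le (Set.toFinite _)).trans ?_
    have h4 : {i : Fin r | i ≠ i0} = Set.univ \ {i0} := by
      ext i
      simp
    rw [h4, Set.ncard_sdiff_singleton_of_mem (Set.mem_univ _), Set.ncard_univ,
      Nat.card_eq_fintype_card, Fintype.card_fin]
  have hc2 : A2.ncard ≤ Nat.card H.ConnectedComponent - 1 := by
    refine (Set.ncard_image_le (Set.toFinite _)).trans ?_
    have h4 : {C : H.ConnectedComponent | C ≠ H.connectedComponentMk (v i0)} =
        Set.univ \ {H.connectedComponentMk (v i0)} := by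
      ext C
      simp
    rw [h4, Set.ncard_sdiff_singleton_of_mem (Set.mem_univ _), Set.ncard_univ]
  have hv1 : ∀ i, Gp.Reachable (v i0) (v i) := by
    intro i
    by_cases hi : i = i0
    · rw [hi]
    · apply Adj.reachable
      rw [hGp, sup_adj, fromEdgeSet_adj]
      exact Or.inr ⟨Or.inl ⟨i, hi, rfl⟩, hvne i hi⟩
  have hv2 : ∀ C, C ≠ H.connectedComponentMk (v i0) → Gp.Reachable (v i0) (rep C) := by
    intro C hC
    apply Adj.reachable
    rw [hGp, sup_adj, fromEdgeSet_adj]
    refine Or.inr ⟨Or.inr ⟨C, hC, rfl⟩, fun h4 => hC ?_⟩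
    rw [h4, hrep]
  have hin : ∀ i x, x ∈ B i → H'.Reachable (v i) x := by
    intro i x hx
    have h4 := (h1 i).preconnected ⟨v i, hv i⟩ ⟨x, hx⟩
    obtain ⟨p⟩ := h4
    have key : ∀ {a c : B i} (p : (H.induce (B i)).Walk a c), H'.Reachable a.1 c.1 := by
      intro a c p
      induction p with
      | nil => exact Reachable.refl _
      | @cons a m c h5 _ ih =>
        refine Reachable.trans (Adj.reachable ?_) ih
        rw [hH'adj]
        refine ⟨h5, ?_⟩
        rintro ⟨-, k, l, hkl, h6⟩
        rw [Sym2.map_mk, (hβi a.1 i).2 a.2, (hβi m.1 i).2 m.2, Sym2.eq_iff] at h6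
        rcases h6 with ⟨h6, h7⟩ | ⟨h6, h7⟩
        · exact hkl (Option.some_inj.1 (h6.symm.trans h7))
        · exact hkl (Option.some_inj.1 (h7.symm.trans h6))
    exact key p
  have hall : ∀ x, Gp.Reachable (v i0) x := by
    intro x
    by_cases hx : ∃ y i, H'.Reachable x y ∧ y ∈ B i
    · obtain ⟨y, i, hxy, hy⟩ := hx
      exact (hv1 i).trans (((hin i y hy).trans hxy.symm).mono hH'le)
    · push Not at hx
      have key : ∀ {a c : V} (p : H.Walk a c), H'.Reachable x a → H'.Reachable x c := by
        intro a c p
        induction p with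
        | nil => exact id
        | @cons a m c h5 _ ih =>
          intro h6
          apply ih
          refine h6.trans (Adj.reachable ?_)
          rw [hH'adj]
          refine ⟨h5, ?_⟩
          rintro ⟨-, k, l, hkl, h7⟩
          rw [Sym2.map_mk, Sym2.eq_iff] at h7
          rcases h7 with ⟨h7, -⟩ | ⟨h7, -⟩
          · exact hx a k h6 ((hβi a k).1 h7)
          · exact hx a l h6 ((hβi a l).1 h7)
      by_cases hc : H.connectedComponentMk x = H.connectedComponentMk (v i0)
      · obtain ⟨p⟩ := ConnectedComponent.exact hc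
        exact absurd (hv i0) (hx _ i0 (key p (Reachable.refl _)))
      · have h4 : H.connectedComponentMk x = H.connectedComponentMk (rep (H.connectedComponentMk x)) :=
          (hrep _).symm
        obtain ⟨p⟩ := ConnectedComponent.exact h4
        exact (hv2 _ hc).trans ((key p (Reachable.refl _)).symm.mono hH'le)
  have hconn : Gp.Connected := (connected_iff_exists_forall_reachable _).2 ⟨_, hall⟩
  have h4 := hconn.card_vert_le_card_edgeSet_add_one
  rw [Nat.card_coe_set_eq] at h4
  have h5 : Gp.edgeSet.ncard ≤ H'.edgeSet.ncard + (A1.ncard + A2.ncard) := by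
    have h6 : Gp.edgeSet ⊆ H'.edgeSet ∪ (A1 ∪ A2) := by
      intro e he
      rw [hGp, edgeSet_sup, edgeSet_fromEdgeSet] at he
      rcases he with he | he
      · exact Or.inl he
      · exact Or.inr he.1
    refine (Set.ncard_le_ncard h6 (Set.toFinite _)).trans ?_
    refine (Set.ncard_union_le _ _).trans ?_
    exact Nat.add_le_add_left (Set.ncard_union_le _ _) _
  have h6 : 0 < Nat.card H.ConnectedComponent := by
    have : Nonempty H.ConnectedComponent := ⟨H.connectedComponentMk (v i0)⟩
    exact Nat.card_pos
  omega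

end Pool.Agent.L0h66.EV
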