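import Pool.Agent.L0h66.EV.ModC

/-!
# The end of the game
-/

set_option autoImplicit false
set_option linter.unusedSectionVars false
set_option linter.unusedVariables false

namespace Pool.Agent.L0h66.EV

open SimpleGraph

variable {V : Type} {r : ℕ}

/-- the edges inside the classes of `b` -/
def fib (G : SimpleGraph V) (b : V → Fin r) : SimpleGraph V where
  Adj x y := G.Adj x y ∧ b x = b y
  symm := ⟨fun _ _ h => ⟨h.1.symm, h.2.symm⟩⟩
  loopless := ⟨fun _ h => h.1.ne rfl⟩

theorem fib_adj {G : SimpleGraph V} {b : V → Fin r} {x y : V} :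
    (fib G b).Adj x y ↔ G.Adj x y ∧ b x = b y := Iff.rfl

theorem fib_const {G : SimpleGraph V} {b : V → Fin r} {x y : V} (h : (fib G b).Reachable x y) :
    b x = b y := by
  obtain ⟨p⟩ := h
  induction p with
  | nil => rfl
  | cons h1 _ ih => exact h1.2.trans ih

/-- the classes are connected iff their vertices are reachable from each other -/
theorem conn_iff {G : SimpleGraph V} {b : V → Fin r} : (∀ i, CutConn G {x | b x = i}) ↔
    ∀ x y, b x = b y → (fib G b).Reachable x y := by
  constructor
  · intro h x y hxy
    by_contra hno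
    obtain ⟨a, d, h1, h2, h3, h4, h5⟩ := h (b x) {y | (fib G b).Reachable x y}
      ⟨x, rfl, Reachable.refl x⟩ ⟨y, hxy.symm, hno⟩
    refine h4 (Reachable.trans h3 (Adj.reachable ⟨h5, ?_⟩))
    exact (show b a = b x from h1).trans (show b d = b x from h2).symm
  · intro h i S ⟨x, hx, hxS⟩ ⟨y, hy, hyS⟩
    obtain ⟨p⟩ := h x y ((show b x = i from hx).trans (show b y = i from hy).symm)
    obtain ⟨d, hd, h1, h2⟩ := p.exists_boundary_dart S hxS hyS
    have h3 : b x = b d.fst := by
      have h4 : d.fst ∈ p.support := p.dart_fst_mem_support_of_mem_darts hd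
      classical
      exact fib_const ⟨p.takeUntil _ h4⟩
    have h4 := d.adj
    rw [fib_adj] at h4
    have hx' : b x = i := hx
    exact ⟨d.fst, d.snd, h3.symm.trans hx', h4.2.symm.trans (h3.symm.trans hx'), h1, h2, h4.1⟩

/-- deleting an edge inside a class that lies on a cycle of the class -/
theorem Model.del_fib [Finite V] {w : Sym2 (Fin r) → ℕ} {G : SimpleGraph V} {b : V → Fin r}
    (hs : ∀ i, ∃ x, b x = i) (hc : ∀ x y, b x = b y → (fib G b).Reachable x y)
    (hn : ∀ p, ¬ p.IsDiag → w p ≤ (cr G b p).ncard) {x y : V} (hxy : (fib G b).Adj x y)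
    (hbr : ¬ (fib G b).IsBridge s(x, y)) : Model w (G.deleteEdges {s(x, y)}) b := by
  refine ⟨hs, conn_iff.2 ?_, ?_⟩
  · intro p q hpq
    have h1 : (fib (G.deleteEdges {s(x, y)}) b) = (fib G b).deleteEdges {s(x, y)} := by
      ext p q
      rw [fib_adj, deleteEdges_adj, deleteEdges_adj, fib_adj]
      tauto
    rw [h1]
    rw [isBridge_iff, not_not] at hbr
    -- replace the edge by a walk
    have key : ∀ {p q : V} (W : (fib G b).Walk p q), ((fib G b).deleteEdges {s(x, y)}).Reachable p q := by
      intro p q W
      induction W with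
      | nil => exact Reachable.refl _
      | @cons p m q h2 _ ih =>
        refine Reachable.trans ?_ ih
        by_cases h3 : s(p, m) = s(x, y)
        · rw [Sym2.eq_iff] at h3
          rcases h3 with ⟨rfl, rfl⟩ | ⟨rfl, rfl⟩
          · exact hbr
          · exact hbr.symm
        · exact Adj.reachable (by rw [deleteEdges_adj]; exact ⟨h2, h3⟩)
    obtain ⟨W⟩ := hc p q hpq
    exact key W
  · intro p hp
    refine (hn p hp).trans (Set.ncard_le_ncard ?_ (Set.toFinite _))
    rintro e ⟨he, hm⟩
    refine ⟨?_, hm⟩
    rw [edgeSet_deleteEdges]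
    refine ⟨he, fun h1 => hp ?_⟩
    rw [Set.mem_singleton_iff.1 h1, Sym2.map_mk] at hm
    rw [← hm, hxy.2]
    exact Sym2.mk_isDiag_iff.2 rfl

section

variable {w : Sym2 (Fin r) → ℕ} {G T : SimpleGraph V} {c : V → V} {u v : V}

theorem T_walk (htc : ∀ x y, T.Adj x y → c x = c y) {x y : V} (h : T.Reachable x y) :
    c x = c y := by
  obtain ⟨p⟩ := h
  induction p with
  | nil => rfl
  | cons h1 _ ih => exact (htc _ _ h1).trans ih

/-- a cycle contains an edge that is not in the acyclic graph `F` -/
theorem exists_not_mem {H F : SimpleGraph V} (hF : F.IsAcyclic) {x : V} {p : H.Walk x x}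
    (hp : p.IsCycle) : ∃ e ∈ p.edges, e ∉ F.edgeSet := by
  by_contra hno
  push Not at hno
  exact hF (p.transfer F hno) (hp.transfer hno)

/-- (i) The last edge is critical. -/
theorem last_critical [Finite V] (hw : Pat w) (h : St w G T c) (huv : G.Adj u v)
    (hT : ¬ T.Adj u v)
    (hcr : ∀ e ∈ G.edgeSet, e ∉ T.edgeSet → e ≠ s(u, v) → ¬ RM w (G.deleteEdges {e}) c) :
    ¬ RM w (G.deleteEdges {s(u, v)}) c := by
  rintro ⟨b, hb, hc⟩
  have hadj : G.deleteEdges {s(u, v)} ≤ G := deleteEdges_le _
  have hTb : ∀ x y, T.Adj x y → b x = b y := fun x y hxy => hc x y (h.tc x y hxy)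
  by_cases huvb : b u = b v
  · -- the edge lies inside a class
    have hreach := conn_iff.1 hb.conn u v huvb
    have h1 : (fib G b).Adj u v := ⟨huv, huvb⟩
    have h2 : fib (G.deleteEdges {s(u, v)}) b = (fib G b).deleteEdges {s(u, v)} := by
      ext p q
      rw [fib_adj, deleteEdges_adj, deleteEdges_adj, fib_adj]
      tauto
    rw [h2] at hreach
    obtain ⟨x, p, hp, -⟩ := adj_and_reachable_delete_edges_iff_exists_cycle.1 ⟨h1, hreach⟩
    have hnr : ¬ T.Reachable u v := fun h3 => h.nl u v huv hT (T_walk h.tc h3)
    obtain ⟨e, he, heT⟩ := exists_not_mem (h.ac.sup_edge_of_not_reachable hnr) hp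
    have he1 := p.edges_subset_edgeSet he
    induction e using Sym2.ind with
    | _ a d =>
      rw [mem_edgeSet] at he1
      rw [mem_edgeSet, sup_adj, edge_adj] at heT
      push Not at heT
      have hne : s(a, d) ≠ s(u, v) := by
        intro h3
        rw [Sym2.eq_iff] at h3
        exact he1.ne (heT.2 h3)
      refine hcr s(a, d) he1.1 heT.1 hne ⟨b, ?_, hc⟩
      refine Model.del_fib hb.surj ?_ (fun q hq => (hb.cnt q hq).trans
        (Set.ncard_le_ncard (cr_mono hadj b q) (Set.toFinite _))) he1
        (fun h3 => h3.notMem_edges_of_isCycle hp he)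
      intro p' q' hpq
      have h4 := conn_iff.1 hb.conn p' q' hpq
      rw [h2] at h4
      exact h4.mono (deleteEdges_le _)
  · -- the edge joins two classes
    obtain ⟨σ, p₀, hp₀, hw₀, hex⟩ := hw.exch s(b u, b v) (by simpa using huvb)
    have h1 : (cr (G.deleteEdges {s(u, v)}) b p₀).Nonempty := by
      rw [← Set.ncard_pos (Set.toFinite _)]
      have := hb.cnt p₀ hp₀
      omega
    obtain ⟨e, he, hm⟩ := h1
    rw [edgeSet_deleteEdges] at he
    have heT : e ∉ T.edgeSet := by
      intro h2
      apply hp₀
      rw [← hm]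
      induction e using Sym2.ind with
      | _ a d =>
        rw [Sym2.map_mk]
        exact Sym2.mk_isDiag_iff.2 (hTb a d h2)
    refine hcr e he.1 heT he.2 ⟨fun x => σ.symm (b x), ⟨?_, ?_, ?_⟩, fun x y hxy => by
      simp only [hc x y hxy]⟩
    · intro i
      obtain ⟨x, hx⟩ := hb.surj (σ i)
      exact ⟨x, by simp only [hx, Equiv.symm_apply_apply]⟩
    · intro i
      have h2 : {x | σ.symm (b x) = i} = {x | b x = σ i} := by
        ext x
        exact Equiv.symm_apply_eq σ
      rw [h2]
      have h3 := hb.conn (σ i)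
      intro S hS1 hS2
      obtain ⟨a, d, k1, k2, k3, k4, k5⟩ := h3 S hS1 hS2
      refine ⟨a, d, k1, k2, k3, k4, ?_⟩
      rw [deleteEdges_adj]
      refine ⟨hadj k5, fun k6 => hp₀ ?_⟩
      rw [← hm, ← Set.mem_singleton_iff.1 k6, Sym2.map_mk]
      exact Sym2.mk_isDiag_iff.2 ((show b a = σ i from k1).trans (show b d = σ i from k2).symm)
    · intro p hp
      have hσp : ¬ (p.map σ).IsDiag := by
        intro h2
        apply hp
        induction p using Sym2.ind with
        | _ i j =>
          rw [Sym2.map_mk, Sym2.mk_isDiag_iff] at h2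
          exact Sym2.mk_isDiag_iff.2 (σ.injective h2)
      have h2 := hex p hp
      have h3 := hb.cnt (p.map σ) hσp
      have h4 : cr (G.deleteEdges {e}) (fun x => σ.symm (b x)) p = cr G b (p.map σ) \ {e} := by
        ext f
        unfold cr
        simp only [Set.mem_ofPred_eq, edgeSet_deleteEdges, Set.mem_sdiff]
        have h5 : f.map (fun x => σ.symm (b x)) = p ↔ f.map b = p.map σ := by
          constructor
          · rintro rfl
            rw [Sym2.map_map]
            congr 1
            ext x
            simp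
          · intro h6
            have h7 : f.map (fun x => σ.symm (b x)) = (f.map b).map σ.symm := by
              rw [Sym2.map_map]
              rfl
            rw [h7, h6, Sym2.map_map]
            have h8 : (⇑σ.symm ∘ ⇑σ) = id := by
              ext x
              simp
            rw [h8, Sym2.map_id]
            rfl
        rw [h5]
        tauto
      have h5 : (cr G b (p.map σ)).ncard = (cr (G.deleteEdges {s(u, v)}) b (p.map σ)).ncard +
          (if p.map σ = s(b u, b v) then 1 else 0) := by
        by_cases h6 : p.map σ = s(b u, b v)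
        · rw [if_pos h6]
          have h7 : cr G b (p.map σ) = insert s(u, v) (cr (G.deleteEdges {s(u, v)}) b (p.map σ)) := by
            ext f
            unfold cr
            simp only [Set.mem_ofPred_eq, edgeSet_deleteEdges, Set.mem_insert_iff, Set.mem_sdiff,
              Set.mem_singleton_iff]
            constructor
            · rintro ⟨k1, k2⟩
              by_cases k3 : f = s(u, v)
              · exact Or.inl k3
              · exact Or.inr ⟨⟨k1, k3⟩, k2⟩
            · rintro (rfl | ⟨⟨k1, -⟩, k2⟩)
              · exact ⟨huv, by rw [Sym2.map_mk, h6]⟩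
              · exact ⟨k1, k2⟩
          rw [h7, Set.ncard_insert_of_notMem _ (Set.toFinite _)]
          rintro ⟨k1, -⟩
          rw [edgeSet_deleteEdges] at k1
          exact k1.2 rfl
        · rw [if_neg h6, add_zero]
          congr 1
          ext f
          unfold cr
          simp only [Set.mem_ofPred_eq, edgeSet_deleteEdges, Set.mem_sdiff, Set.mem_singleton_iff]
          constructor
          · rintro ⟨k1, k2⟩
            refine ⟨⟨k1, ?_⟩, k2⟩
            rintro rfl
            exact h6 (by rw [← k2, Sym2.map_mk])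
          · rintro ⟨⟨k1, -⟩, k2⟩
            exact ⟨k1, k2⟩
      rw [h4]
      by_cases h6 : p.map σ = p₀
      · have h7 : e ∈ cr G b (p.map σ) := ⟨he.1, by rw [hm, h6]⟩
        rw [Set.ncard_sdiff_singleton_of_mem h7]
        rw [if_pos h6] at h2
        omega
      · have h7 : e ∉ cr G b (p.map σ) := fun k1 => h6 (k1.2.symm.trans hm)
        rw [Set.sdiff_singleton_eq_self h7]
        rw [if_neg h6] at h2
        omega

end

end Pool.Agent.L0h66.EV
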