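import Pool.Agent.L0h66.EV.Count
import Pool.Agent.L0h66.EV.Adv

/-!
# The general theorem on host graphs
-/

set_option autoImplicit false
set_option linter.unusedSectionVars false
set_option linter.unusedVariables false

namespace Pool.Agent.L0h66.EV

open SimpleGraph

variable {V : Type} {r : ℕ}

/-- `r` disjoint connected vertex sets with at least `w s(i, j)` edges between the sets number `i`
and `j`. -/
def HasMinor (w : Sym2 (Fin r) → ℕ) (G : SimpleGraph V) : Prop :=
  ∃ B : Fin r → Set V, (∀ i, (G.induce (B i)).Connected) ∧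
    (∀ i j, i ≠ j → Disjoint (B i) (B j)) ∧
    ∀ i j, i ≠ j → w s(i, j) ≤ {e | e ∈ G.edgeSet ∧ ∃ x ∈ B i, ∃ y ∈ B j, e = s(x, y)}.ncard

theorem cut_iff {G : SimpleGraph V} {A : Set V} : CutConn G A ↔ (G.induce A).Preconnected := by
  constructor
  · rintro h ⟨x, hx⟩ ⟨y, hy⟩
    by_contra hno
    obtain ⟨a, d, h1, h2, h3, h4, h5⟩ := h
      {z | ∃ hz : z ∈ A, (G.induce A).Reachable ⟨x, hx⟩ ⟨z, hz⟩}
      ⟨x, hx, hx, Reachable.refl _⟩ ⟨y, hy, fun ⟨_, h1⟩ => hno h1⟩
    obtain ⟨h6, h7⟩ := h3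
    refine h4 ⟨h2, h7.trans (Adj.reachable ?_)⟩
    exact h5
  · intro h S ⟨x, hx, hxS⟩ ⟨y, hy, hyS⟩
    obtain ⟨p⟩ := h ⟨x, hx⟩ ⟨y, hy⟩
    obtain ⟨d, hd, h1, h2⟩ := p.exists_boundary_dart (Subtype.val ⁻¹' S) hxS hyS
    exact ⟨d.fst, d.snd, d.fst.2, d.snd.2, h1, h2, d.adj⟩

theorem cut_univ {G : SimpleGraph V} : CutConn G Set.univ ↔ G.Preconnected := by
  constructor
  · intro h x y
    by_contra hno
    obtain ⟨a, d, h1, h2, h3, h4, h5⟩ := h {z | G.Reachable x z} ⟨x, trivial, Reachable.refl _⟩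
      ⟨y, trivial, hno⟩
    exact h4 (Reachable.trans h3 h5.reachable)
  · intro h S ⟨x, _, hxS⟩ ⟨y, _, hyS⟩
    obtain ⟨p⟩ := h x y
    obtain ⟨d, hd, h1, h2⟩ := p.exists_boundary_dart S hxS hyS
    exact ⟨d.fst, d.snd, trivial, trivial, h1, h2, d.adj⟩

theorem Model.hasMinor {w : Sym2 (Fin r) → ℕ} {G : SimpleGraph V} {b : V → Fin r}
    (h : Model w G b) : HasMinor w G := by
  refine ⟨fun i => {x | b x = i}, ?_, ?_, ?_⟩
  · intro i
    rw [connected_iff]
    refine ⟨cut_iff.1 (h.conn i), ?_⟩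
    obtain ⟨x, hx⟩ := h.surj i
    exact ⟨⟨x, hx⟩⟩
  · intro i j hij
    rw [Set.disjoint_left]
    intro x hx hx2
    exact hij ((show b x = i from hx).symm.trans hx2)
  · intro i j hij
    refine (h.cnt s(i, j) (by simpa using hij)).trans (le_of_eq ?_)
    congr 1
    ext e
    constructor
    · rintro ⟨h1, h2⟩
      refine ⟨h1, ?_⟩
      induction e using Sym2.ind with
      | _ x y =>
        rw [Sym2.map_mk, Sym2.eq_iff] at h2
        rcases h2 with ⟨h3, h4⟩ | ⟨h3, h4⟩
        · exact ⟨x, h3, y, h4, rfl⟩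
        · exact ⟨y, h4, x, h3, Sym2.eq_swap⟩
    · rintro ⟨h1, x, hx, y, hy, rfl⟩
      refine ⟨h1, ?_⟩
      rw [Sym2.map_mk, show b x = i from hx, show b y = j from hy]

theorem extend [Finite V] {w : Sym2 (Fin r) → ℕ} {G : SimpleGraph V} (hr : 0 < r)
    (hG : G.Preconnected) : ∀ (n : ℕ) (B : Fin r → Set V), (∀ i, (B i).Nonempty) →
    (∀ i, CutConn G (B i)) → (∀ i j, i ≠ j → Disjoint (B i) (B j)) →
    (∀ i j, i ≠ j → w s(i, j) ≤ {e | e ∈ G.edgeSet ∧ ∃ x ∈ B i, ∃ y ∈ B j, e = s(x, y)}.ncard) →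
    ((⋃ i, B i)ᶜ).ncard = n → ∃ b, Model w G b := by
  classical
  intro n
  induction n with
  | zero =>
    intro B h1 h2 h3 h4 h5
    rw [Set.ncard_eq_zero (Set.toFinite _), Set.compl_empty_iff] at h5
    have h6 : ∀ x, ∃ i, x ∈ B i := by
      intro x
      have := Set.mem_univ x
      rw [← h5] at this
      exact Set.mem_iUnion.1 this
    choose b hb using h6
    have hbi : ∀ x i, b x = i ↔ x ∈ B i := by
      intro x i
      constructor
      · rintro rfl
        exact hb x
      · intro hx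
        by_contra hne
        exact Set.disjoint_left.1 (h3 _ _ hne) (hb x) hx
    refine ⟨b, ?_, ?_, ?_⟩
    · intro i
      obtain ⟨x, hx⟩ := h1 i
      exact ⟨x, (hbi x i).2 hx⟩
    · intro i
      have : {x | b x = i} = B i := by
        ext x
        exact hbi x i
      rw [this]
      exact h2 i
    · intro p hp
      induction p using Sym2.ind with
      | _ i j =>
        rw [Sym2.mk_isDiag_iff] at hp
        refine (h4 i j hp).trans (Set.ncard_le_ncard ?_ (Set.toFinite _))
        rintro e ⟨k1, x, hx, y, hy, rfl⟩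
        refine ⟨k1, ?_⟩
        rw [Sym2.map_mk, (hbi x i).2 hx, (hbi y j).2 hy]
  | succ n ih =>
    intro B h1 h2 h3 h4 h5
    have hne : ((⋃ i, B i)ᶜ).Nonempty := by
      rw [← Set.ncard_pos (Set.toFinite _)]
      omega
    obtain ⟨y, hy⟩ := hne
    obtain ⟨x, hx⟩ := h1 ⟨0, hr⟩
    obtain ⟨a, d, -, -, ha, hd, had⟩ := cut_univ.2 hG (⋃ i, B i)
      ⟨x, trivial, Set.mem_iUnion.2 ⟨_, hx⟩⟩ ⟨y, trivial, hy⟩
    obtain ⟨k, hk⟩ := Set.mem_iUnion.1 ha
    have hd' : ∀ i, d ∉ B i := fun i hi => hd (Set.mem_iUnion.2 ⟨i, hi⟩)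
    set B' : Fin r → Set V := fun i => if i = k then B k ∪ {d} else B i with hB'
    have hBk : B' k = B k ∪ {d} := if_pos rfl
    have hBn : ∀ i, i ≠ k → B' i = B i := fun i hi => if_neg hi
    have hsub : ∀ i, B i ⊆ B' i := by
      intro i
      by_cases hi : i = k
      · subst hi
        rw [hBk]
        exact Set.subset_union_left
      · rw [hBn i hi]
    apply ih B'
    · intro i
      exact (h1 i).mono (hsub i)
    · intro i
      by_cases hi : i = k
      · subst hi
        rw [hBk]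
        refine (h2 i).union ?_ hk rfl had
        rintro S ⟨x, rfl, hx⟩ ⟨y, rfl, hy⟩
        exact absurd hx hy
      · rw [hBn i hi]
        exact h2 i
    · intro i j hij
      rw [Set.disjoint_left]
      intro q hq hq2
      by_cases hi : i = k
      · subst hi
        rw [hBk] at hq
        rw [hBn j (fun h => hij h.symm)] at hq2
        rcases hq with hq | hq
        · exact Set.disjoint_left.1 (h3 _ _ hij) hq hq2
        · rw [Set.mem_singleton_iff.1 hq] at hq2
          exact hd' j hq2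
      · rw [hBn i hi] at hq
        by_cases hj : j = k
        · subst hj
          rw [hBk] at hq2
          rcases hq2 with hq2 | hq2
          · exact Set.disjoint_left.1 (h3 _ _ hij) hq hq2
          · rw [Set.mem_singleton_iff.1 hq2] at hq
            exact hd' i hq
        · rw [hBn j hj] at hq2
          exact Set.disjoint_left.1 (h3 _ _ hij) hq hq2
    · intro i j hij
      refine (h4 i j hij).trans (Set.ncard_le_ncard ?_ (Set.toFinite _))
      rintro e ⟨k1, x, hx, y, hy, rfl⟩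
      exact ⟨k1, x, hsub i hx, y, hsub j hy, rfl⟩
    · have h6 : (⋃ i, B' i)ᶜ = (⋃ i, B i)ᶜ \ {d} := by
        ext q
        constructor
        · intro hq
          refine ⟨fun h7 => hq ?_, fun h7 => hq ?_⟩
          · obtain ⟨i, hi⟩ := Set.mem_iUnion.1 h7
            exact Set.mem_iUnion.2 ⟨i, hsub i hi⟩
          · rw [Set.mem_singleton_iff.1 h7]
            exact Set.mem_iUnion.2 ⟨k, by rw [hBk]; exact Or.inr rfl⟩
        · rintro ⟨h7, h8⟩ h9
          obtain ⟨i, hi⟩ := Set.mem_iUnion.1 h9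
          by_cases hik : i = k
          · subst hik
            rw [hBk] at hi
            rcases hi with hi | hi
            · exact h7 (Set.mem_iUnion.2 ⟨i, hi⟩)
            · exact h8 hi
          · rw [hBn i hik] at hi
            exact h7 (Set.mem_iUnion.2 ⟨i, hi⟩)
      rw [h6, Set.ncard_sdiff_singleton_of_mem hd, h5]
      rfl

theorem Pat.pos {w : Sym2 (Fin r) → ℕ} (hw : Pat w) : 0 < r := by
  by_contra h0
  have h1 := hw.tot
  have : IsEmpty (Fin r) := by
    rw [not_lt, Nat.le_zero] at h0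
    rw [h0]
    infer_instance
  rw [Finset.sum_eq_zero] at h1
  · omega
  · intro p _
    induction p using Sym2.ind with
    | _ i j => exact isEmptyElim i

theorem HasMinor.model [Finite V] {w : Sym2 (Fin r) → ℕ} (hw : Pat w) {G : SimpleGraph V}
    (h : HasMinor w G) (hG : G.Preconnected) : ∃ b, Model w G b := by
  obtain ⟨B, h1, h2, h3⟩ := h
  refine extend hw.pos hG _ B (fun i => ?_) (fun i => cut_iff.2 (h1 i).preconnected) h2 h3 rfl
  obtain ⟨⟨x, hx⟩⟩ := (h1 i).nonempty
  exact ⟨x, hx⟩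

/-- The property `P` of the spanning subgraphs of the host graph `G₀` is evasive: every adaptive
strategy `σ` (a rule for choosing the next edge, depending only on the answers to the queries made
so far) needs all `|E(G₀)|` queries: there are two subgraphs that agree on the first
`|E(G₀)| - 1` queried edges, one with and one without `P`. -/
def EvasiveOn (G₀ : SimpleGraph V) [DecidableEq V] (P : SimpleGraph V → Prop) : Prop :=
  ∀ σ : Finset (Sym2 V) → SimpleGraph V → Sym2 V,
    (∀ (Q : Finset (Sym2 V)) (G H : SimpleGraph V),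
        (∀ e ∈ Q, (e ∈ G.edgeSet ↔ e ∈ H.edgeSet)) → σ Q G = σ Q H) →
    ∃ G H : SimpleGraph V, G ≤ G₀ ∧ H ≤ G₀ ∧
      (∀ e ∈ (fun Q : Finset (Sym2 V) => insert (σ Q G) Q)^[G₀.edgeSet.ncard - 1]
            (∅ : Finset (Sym2 V)),
          (e ∈ G.edgeSet ↔ e ∈ H.edgeSet)) ∧ P G ∧ ¬ P H

section

variable [DecidableEq V]

/-- the graph of a set of edges -/
def gr (A : Finset (Sym2 V)) : SimpleGraph V := fromEdgeSet (A : Set (Sym2 V))

theorem mem_gr {A : Finset (Sym2 V)} {e : Sym2 V} : e ∈ (gr A).edgeSet ↔ e ∈ A ∧ ¬ e.IsDiag := by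
  unfold gr
  rw [edgeSet_fromEdgeSet]
  rfl

theorem gr_congr {A B : Finset (Sym2 V)} (h : ∀ e, ¬ e.IsDiag → (e ∈ A ↔ e ∈ B)) :
    gr A = gr B := by
  rw [← edgeSet_inj]
  ext e
  rw [mem_gr, mem_gr]
  constructor
  · rintro ⟨h1, h2⟩
    exact ⟨(h e h2).1 h1, h2⟩
  · rintro ⟨h1, h2⟩
    exact ⟨(h e h2).2 h1, h2⟩

theorem gr_erase {A B : Finset (Sym2 V)} {x : Sym2 V} (h : ∀ e, e ∈ B ↔ e ∈ A ∧ e ≠ x) :
    gr B = (gr A).deleteEdges {x} := by
  rw [← edgeSet_inj]
  ext e
  rw [mem_gr, edgeSet_deleteEdges, Set.mem_sdiff, mem_gr, h, Set.mem_singleton_iff]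
  tauto

/-- the invariant -/
structure Inv (w : Sym2 (Fin r) → ℕ) (U Y : Finset (Sym2 V)) : Prop where
  nd : ∀ e ∈ U, ¬ e.IsDiag
  dj : ∀ e ∈ U, e ∉ Y
  st : ∃ (T : SimpleGraph V) (c : V → V), St w (gr (U ∪ Y)) T c ∧ (∀ e ∈ T.edgeSet, e ∈ Y) ∧
    ∀ e ∈ Y, e ∉ T.edgeSet → ¬ RM w ((gr (U ∪ Y)).deleteEdges {e}) c

theorem inv_step [Finite V] {w : Sym2 (Fin r) → ℕ} (hw : Pat w) (U Y : Finset (Sym2 V))
    (e : Sym2 V) (h : Inv w U Y) (he : e ∈ U) :
    Inv w (U.erase e) Y ∨ Inv w (U.erase e) (insert e Y) := by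
  obtain ⟨nd, dj, T, c, hst, hTY, hcr⟩ := h
  have hnd : ∀ f ∈ U.erase e, ¬ f.IsDiag := fun f hf => nd f (Finset.mem_of_mem_erase hf)
  have heT : e ∉ T.edgeSet := fun h1 => dj e he (hTY e h1)
  have hdj1 : ∀ f ∈ U.erase e, f ∉ Y := fun f hf => dj f (Finset.mem_of_mem_erase hf)
  have hdj2 : ∀ f ∈ U.erase e, f ∉ insert e Y := by
    intro f hf h1
    rw [Finset.mem_erase] at hf
    rcases Finset.mem_insert.1 h1 with h2 | h2
    · exact hf.1 h2
    · exact dj f hf.2 h2
  have hsame : U.erase e ∪ insert e Y = U ∪ Y := by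
    ext f
    simp only [Finset.mem_union, Finset.mem_erase, Finset.mem_insert]
    constructor
    · rintro (⟨-, h1⟩ | rfl | h1)
      · exact Or.inl h1
      · exact Or.inl he
      · exact Or.inr h1
    · rintro (h1 | h1)
      · by_cases h2 : f = e
        · exact Or.inr (Or.inl h2)
        · exact Or.inl ⟨h2, h1⟩
      · exact Or.inr (Or.inr h1)
  have hdel : gr (U.erase e ∪ Y) = (gr (U ∪ Y)).deleteEdges {e} := by
    apply gr_erase
    intro f
    simp only [Finset.mem_union, Finset.mem_erase]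
    constructor
    · rintro (⟨h1, h2⟩ | h1)
      · exact ⟨Or.inl h2, h1⟩
      · refine ⟨Or.inr h1, ?_⟩
        rintro rfl
        exact dj f he h1
    · rintro ⟨h1 | h1, h2⟩
      · exact Or.inl ⟨h2, h1⟩
      · exact Or.inr h1
  by_cases hA : RM w ((gr (U ∪ Y)).deleteEdges {e}) c
  swap
  · -- the edge is critical
    right
    refine ⟨hnd, hdj2, T, c, ?_, fun f hf => Finset.mem_insert_of_mem (hTY f hf), ?_⟩
    · rw [hsame]
      exact hst
    · intro f hf hfT
      rw [hsame]
      rcases Finset.mem_insert.1 hf with rfl | hf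
      · exact hA
      · exact hcr f hf hfT
  by_cases hB : ∀ z, CutConn ((gr (U ∪ Y)).deleteEdges {e}) {x | c x ≠ c z}
  · -- the edge is deleted
    left
    refine ⟨hnd, hdj1, T, c, ?_, hTY, ?_⟩
    · rw [hdel]
      exact hst.delete heT hA hB
    · intro f hf hfT h1
      refine hcr f hf hfT (h1.mono ?_)
      rw [hdel]
      exact deleteEdges_mono (deleteEdges_le _)
  · -- the edge is contracted
    right
    push Not at hB
    obtain ⟨z, hz⟩ := hB
    unfold CutConn at hz
    push Not at hz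
    obtain ⟨S, h1, h2, h3⟩ := hz
    obtain ⟨a, d, k1, k2, k3, k4, k5⟩ := hst.two z S h1 h2
    have had : s(a, d) = e := by
      by_contra hne
      exact h3 a d k1 k2 k3 k4 (by rw [deleteEdges_adj]; exact ⟨k5, hne⟩)
    subst had
    have hcut : Cut (gr (U ∪ Y)) c a d z S := by
      refine ⟨k1, k2, k3, k4, ?_⟩
      intro x y hx hy hxS hyS hxy
      by_contra hne
      refine h3 x y hx hy hxS hyS ?_
      rw [deleteEdges_adj]
      refine ⟨hxy, fun h4 => ?_⟩
      rw [Set.mem_singleton_iff, Sym2.eq_iff] at h4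
      rcases h4 with h4 | ⟨rfl, rfl⟩
      · exact hne h4
      · exact k4 hxS
    have hTad : ¬ T.Adj a d := heT
    refine ⟨hnd, hdj2, T ⊔ edge a d, mg c a d, ?_, ?_, ?_⟩
    · rw [hsame]
      exact hst.contract hw k5 hTad hcut hA
    · intro f hf
      rw [edgeSet_sup] at hf
      rcases hf with hf | hf
      · exact Finset.mem_insert_of_mem (hTY f hf)
      · rw [edgeSet_edge_of_ne k5.ne] at hf
        rw [Set.mem_singleton_iff.1 hf]
        exact Finset.mem_insert_self _ _
    · intro f hf hfT h4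
      rw [hsame] at h4
      have hfne : f ≠ s(a, d) := by
        rintro rfl
        apply hfT
        rw [edgeSet_sup, edgeSet_edge_of_ne k5.ne]
        exact Or.inr rfl
      have hfY : f ∈ Y := by
        rcases Finset.mem_insert.1 hf with h5 | h5
        · exact absurd h5 hfne
        · exact h5
      refine hcr f hfY (fun h5 => hfT ?_) ?_
      · rw [edgeSet_sup]
        exact Or.inl h5
      · obtain ⟨b, h5, h6⟩ := h4
        exact ⟨b, h5, fun x y hxy => h6 x y ((mg_iff x y).2 (Or.inl hxy))⟩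

theorem inv_end [Finite V] {w : Sym2 (Fin r) → ℕ} (hw : Pat w) (e : Sym2 V) (Y : Finset (Sym2 V))
    (h : Inv w {e} Y) : HasMinor w (gr (insert e Y)) ∧ (gr Y).Preconnected ∧
      (gr Y).edgeSet.ncard + 1 + r ≤ Nat.card V + ∑ p with ¬ Sym2.IsDiag p, w p := by
  obtain ⟨nd, dj, T, c, hst, hTY, hcr⟩ := h
  have hne := nd e (Finset.mem_singleton_self e)
  have heY := dj e (Finset.mem_singleton_self e)
  have heT : e ∉ T.edgeSet := fun h1 => heY (hTY e h1)
  have h1 : ({e} : Finset (Sym2 V)) ∪ Y = insert e Y := rfl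
  have hdel : gr Y = (gr ({e} ∪ Y)).deleteEdges {e} := by
    apply gr_erase
    intro f
    simp only [Finset.mem_union, Finset.mem_singleton]
    constructor
    · intro h2
      refine ⟨Or.inr h2, ?_⟩
      rintro rfl
      exact heY h2
    · rintro ⟨h2 | h2, h3⟩
      · exact absurd h2 h3
      · exact h2
  have heG : e ∈ (gr ({e} ∪ Y)).edgeSet := by
    rw [mem_gr]
    exact ⟨Finset.mem_union_left _ (Finset.mem_singleton_self e), hne⟩
  induction e using Sym2.ind with
  | _ u v =>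
    have huv : (gr ({s(u, v)} ∪ Y)).Adj u v := heG
    have hTuv : ¬ T.Adj u v := heT
    have hcr' : ∀ f ∈ (gr ({s(u, v)} ∪ Y)).edgeSet, f ∉ T.edgeSet → f ≠ s(u, v) →
        ¬ RM w ((gr ({s(u, v)} ∪ Y)).deleteEdges {f}) c := by
      intro f hf hfT hne
      rw [mem_gr, Finset.mem_union, Finset.mem_singleton] at hf
      rcases hf.1 with h2 | h2
      · exact absurd h2 hne
      · exact hcr f h2 hfT
    have hlast := last_critical hw hst huv hTuv hcr'
    refine ⟨?_, ?_, ?_⟩
    · obtain ⟨b, hb, -⟩ := hst.mod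
      rw [← h1]
      exact hb.hasMinor
    · rw [hdel]
      exact cut_univ.1 (conn_end hw hst huv hTuv)
    · have h2 := count_end hw hst (fun f hf hfT => by
        by_cases h3 : f = s(u, v)
        · subst h3
          exact hlast
        · exact hcr' f hf hfT h3)
      have h3 : (gr Y).edgeSet.ncard + 1 = (gr ({s(u, v)} ∪ Y)).edgeSet.ncard := by
        rw [hdel, edgeSet_deleteEdges, Set.ncard_sdiff_singleton_of_mem heG]
        have : 0 < (gr ({s(u, v)} ∪ Y)).edgeSet.ncard :=
          (Set.ncard_pos (Set.toFinite _)).2 ⟨_, heG⟩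
        omega
      omega

/-- **The general theorem.** -/
theorem host [Finite V] {w : Sym2 (Fin r) → ℕ} (hw : Pat w) (G₀ : SimpleGraph V)
    (h1 : G₀.Connected) (h2 : ∀ x, (G₀.induce {x}ᶜ).Preconnected) (h3 : HasMinor w G₀)
    (P : SimpleGraph V → Prop) (hP1 : ∀ H, H ≤ G₀ → HasMinor w H → P H)
    (hP2 : ∀ H, H ≤ G₀ → P H → Nat.card V + (∑ p with ¬ Sym2.IsDiag p, w p) + 1 ≤
      H.edgeSet.ncard + Nat.card H.ConnectedComponent + r) : EvasiveOn G₀ P := by
  classical
  intro σ hσ
  set E0 : Finset (Sym2 V) := (Set.toFinite G₀.edgeSet).toFinset with hE0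
  have hmem : ∀ e, e ∈ E0 ↔ e ∈ G₀.edgeSet := fun e => Set.Finite.mem_toFinset _
  have hcard : E0.card = G₀.edgeSet.ncard := (Set.ncard_eq_toFinset_card _ _).symm
  have hgr0 : gr (E0 ∪ ∅) = G₀ := by
    rw [← edgeSet_inj]
    ext e
    rw [mem_gr, Finset.union_empty, hmem]
    exact ⟨fun h => h.1, fun h => ⟨h, G₀.not_isDiag_of_mem_edgeSet h⟩⟩
  obtain ⟨b, hb⟩ := h3.model hw h1.preconnected
  have hinit : Inv w E0 ∅ := by
    refine ⟨fun e he => G₀.not_isDiag_of_mem_edgeSet ((hmem e).1 he),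
      fun e _ => Finset.notMem_empty e, ⊥, id, ?_, ?_, ?_⟩
    · rw [hgr0]
      refine ⟨bot_le, fun x y h => absurd h id, ?_, fun x y h _ => h.ne, isAcyclic_bot, ?_, b, hb,
        fun x y h => by rw [show x = y from h]⟩
      · rintro z S ⟨x, hx, hxS⟩ ⟨y, hy, hyS⟩
        exact absurd ((show x = z from hx) ▸ hxS) ((show y = z from hy) ▸ hyS)
      · intro z
        exact cut_iff.2 (h2 z)
    · intro e he
      rw [edgeSet_bot] at he
      exact absurd he (Set.notMem_empty e)
    · intro e he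
      exact absurd he (Finset.notMem_empty e)
  have hE0ne : E0.Nonempty := by
    rw [← Finset.card_pos, hcard]
    have hr := hw.pos
    by_contra h0
    rw [not_lt, Nat.le_zero, Set.ncard_eq_zero (Set.toFinite _)] at h0
    have h5 := hw.tot
    rw [Finset.sum_eq_zero] at h5
    · omega
    · intro p hp
      rw [Finset.mem_filter] at hp
      have h6 := hb.cnt p hp.2
      have h7 : cr G₀ b p = ∅ := by
        rw [Set.eq_empty_iff_forall_notMem]
        rintro e ⟨he, -⟩
        rw [h0] at he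
        exact he
      rw [h7, Set.ncard_empty] at h6
      omega
  obtain ⟨A, B, hA, hB, hag, hPA, hPB⟩ := adversary
    (fun U Y => Inv w U Y ∧ U ⊆ E0 ∧ Y ⊆ E0) (fun A => P (gr A))
    (fun U Y e ⟨k1, k2, k3⟩ he _ => by
      rcases inv_step hw U Y e k1 he with h | h
      · exact Or.inl ⟨h, (Finset.erase_subset _ _).trans k2, k3⟩
      · exact Or.inr ⟨h, (Finset.erase_subset _ _).trans k2,
          Finset.insert_subset (k2 he) k3⟩)
    (fun e Y ⟨k1, k2, k3⟩ => by
      have hle : ∀ A : Finset (Sym2 V), A ⊆ E0 → gr A ≤ G₀ := by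
        intro A hA
        rw [← edgeSet_subset_edgeSet]
        intro f hf
        rw [mem_gr] at hf
        exact (hmem f).1 (hA hf.1)
      obtain ⟨k4, k5, k6⟩ := inv_end hw e Y k1
      refine ⟨hP1 _ (hle _ (Finset.insert_subset (k2 (Finset.mem_singleton_self e)) k3)) k4,
        fun k7 => ?_⟩
      have k8 := hP2 _ (hle _ k3) k7
      have : Nonempty V := h1.nonempty
      have k9 : Nat.card (gr Y).ConnectedComponent = 1 := by
        have : Subsingleton (gr Y).ConnectedComponent := k5.subsingleton_connectedComponent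
        have : Nonempty (gr Y).ConnectedComponent := ⟨(gr Y).connectedComponentMk (Classical.arbitrary V)⟩
        exact Nat.card_unique
      omega)
    E0 ⟨hinit, Finset.Subset.refl _, Finset.empty_subset _⟩ hE0ne
    (fun Q A => σ Q (gr A))
    (fun Q A B h => hσ Q _ _ (fun e he => by
      rw [mem_gr, mem_gr, h e he]))
  refine ⟨gr A, gr B, ?_, ?_, ?_, hPA, hPB⟩
  · rw [← edgeSet_subset_edgeSet]
    intro f hf
    rw [mem_gr] at hf
    exact (hmem f).1 (hA hf.1)
  · rw [← edgeSet_subset_edgeSet]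
    intro f hf
    rw [mem_gr] at hf
    exact (hmem f).1 (hB hf.1)
  · intro e he
    rw [← hcard] at he
    rw [mem_gr, mem_gr, hag e he]

end

end Pool.Agent.L0h66.EV
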