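import Pool.Agent.L0h66.EV.Contract

/-!
# The model after a contraction
-/

set_option autoImplicit false
set_option linter.unusedSectionVars false
set_option linter.unusedVariables false

namespace Pool.Agent.L0h66.EV

open SimpleGraph

variable {V : Type} {r : ℕ}

theorem CutConn.union {G : SimpleGraph V} {A B : Set V} (hA : CutConn G A) (hB : CutConn G B)
    {a b : V} (ha : a ∈ A) (hb : b ∈ B) (hab : G.Adj a b) : CutConn G (A ∪ B) := by
  intro S ⟨x, hx, hxS⟩ ⟨y, hy, hyS⟩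
  by_contra hno
  push Not at hno
  have hA1 : ∀ x ∈ A, (x ∈ S ↔ a ∈ S) := by
    intro x hx
    by_contra h
    by_cases h1 : x ∈ S
    · obtain ⟨p, q, h2, h3, h4, h5, h6⟩ := hA S ⟨x, hx, h1⟩ ⟨a, ha, fun h2 => h ⟨fun _ => h2, fun _ => h1⟩⟩
      exact hno p q (Or.inl h2) (Or.inl h3) h4 h5 h6
    · obtain ⟨p, q, h2, h3, h4, h5, h6⟩ := hA S ⟨a, ha, by
        by_contra h2
        exact h ⟨fun h3 => absurd h3 h1, fun h3 => absurd h3 h2⟩⟩ ⟨x, hx, h1⟩
      exact hno p q (Or.inl h2) (Or.inl h3) h4 h5 h6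
  have hB1 : ∀ x ∈ B, (x ∈ S ↔ b ∈ S) := by
    intro x hx
    by_contra h
    by_cases h1 : x ∈ S
    · obtain ⟨p, q, h2, h3, h4, h5, h6⟩ := hB S ⟨x, hx, h1⟩ ⟨b, hb, fun h2 => h ⟨fun _ => h2, fun _ => h1⟩⟩
      exact hno p q (Or.inr h2) (Or.inr h3) h4 h5 h6
    · obtain ⟨p, q, h2, h3, h4, h5, h6⟩ := hB S ⟨b, hb, by
        by_contra h2
        exact h ⟨fun h3 => absurd h3 h1, fun h3 => absurd h3 h2⟩⟩ ⟨x, hx, h1⟩
      exact hno p q (Or.inr h2) (Or.inr h3) h4 h5 h6
  have hab1 : a ∈ S ↔ b ∈ S := by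
    constructor
    · intro h
      by_contra h1
      exact hno a b (Or.inl ha) (Or.inr hb) h h1 hab
    · intro h
      by_contra h1
      exact hno b a (Or.inr hb) (Or.inl ha) h h1 hab.symm
  have hall : ∀ x ∈ A ∪ B, (x ∈ S ↔ a ∈ S) := by
    rintro x (h | h)
    · exact hA1 x h
    · exact (hB1 x h).trans hab1.symm
  exact hyS ((hall y hy).2 ((hall x hx).1 hxS))

section

variable {w : Sym2 (Fin r) → ℕ} {G T : SimpleGraph V} {c : V → V} {u v z : V} {S : Set V}

/-- the part on the other side of the cut is connected -/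
theorem conn_side (h : St w G T c) (k : Cut G c u v z S) :
    CutConn G {x | c x ≠ c z ∧ x ∉ S} := by
  intro S' ⟨x, hx, hxS'⟩ ⟨y, hy, hyS'⟩
  by_contra hno
  push Not at hno
  by_cases hv : v ∈ S'
  · obtain ⟨a, b, h1, h2, h3, h4, h5⟩ := h.two z {x | (c x ≠ c z ∧ x ∉ S) ∧ x ∉ S'}
      ⟨y, hy.1, hy, hyS'⟩ ⟨v, k.hv, fun h1 => h1.2 hv⟩
    by_cases hbS : b ∈ S
    · obtain ⟨h6, h7⟩ := k.cut b a h2 h1 hbS h3.1.2 h5.symm
      exact h3.2 (h7 ▸ hv)
    · have hbS' : b ∈ S' := by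
        by_contra h6
        exact h4 ⟨⟨h2, hbS⟩, h6⟩
      exact hno b a ⟨h2, hbS⟩ h3.1 hbS' h3.2 h5.symm
  · obtain ⟨a, b, h1, h2, h3, h4, h5⟩ := h.two z {x | (c x ≠ c z ∧ x ∉ S) ∧ x ∈ S'}
      ⟨x, hx.1, hx, hxS'⟩ ⟨v, k.hv, fun h1 => hv h1.2⟩
    by_cases hbS : b ∈ S
    · obtain ⟨h6, h7⟩ := k.cut b a h2 h1 hbS h3.1.2 h5.symm
      exact hv (h7 ▸ h3.2)
    · have hbS' : b ∉ S' := by
        intro h6
        exact h4 ⟨⟨h2, hbS⟩, h6⟩
      exact hno a b h3.1 ⟨h2, hbS⟩ h3.2 hbS' h5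

open Classical in
theorem mod_one [Finite V] (h : St w G T c) (huv : G.Adj u v) (hT : ¬ T.Adj u v)
    (k : Cut G c u v z S) {b : V → Fin r} (hb : Model w (G.deleteEdges {s(u, v)}) b)
    (hc : ∀ x y, c x = c y → b x = b y) (hside : ∀ x, c x ≠ c z → x ∉ S → b x = b z) :
    ∃ b' : V → Fin r, Model w G b' ∧ (∀ x y, c x = c y → b' x = b' y) ∧ b' u = b' v := by
  by_cases hbu : b u = b z
  · exact ⟨b, hb.mono (deleteEdges_le _), hc, hbu.trans (hside v k.hv k.hvs).symm⟩
  have hadj : ∀ {x y : V}, (G.deleteEdges {s(u, v)}).Adj x y → G.Adj x y :=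
    fun hxy => deleteEdges_le _ hxy
  have hnc : ∀ x y, (G.deleteEdges {s(u, v)}).Adj x y → c x ≠ c z → c y ≠ c z → x ∈ S → y ∉ S →
      False := by
    intro x y hxy hx hy hxS hyS
    obtain ⟨h1, h2⟩ := k.cut x y hx hy hxS hyS (hadj hxy)
    rw [deleteEdges_adj, h1, h2] at hxy
    exact hxy.2 rfl
  set b' : V → Fin r := fun x => if c x ≠ c z ∧ x ∉ S then b u else b x with hb'
  have hin : ∀ x, (c x ≠ c z ∧ x ∉ S) → b' x = b u := fun x hx => if_pos hx
  have hout : ∀ x, ¬ (c x ≠ c z ∧ x ∉ S) → b' x = b x := fun x hx => if_neg hx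
  have hbne : ∀ x, b x ≠ b z → b' x = b x := fun x hx => hout x (fun h1 => hx (hside x h1.1 h1.2))
  have hbz : ∀ x, b' x = b z ↔ b x = b z ∧ ¬ (c x ≠ c z ∧ x ∉ S) := by
    intro x
    constructor
    · intro h1
      by_cases h2 : c x ≠ c z ∧ x ∉ S
      · rw [hin x h2] at h1
        exact absurd h1 hbu
      · rw [hout x h2] at h1
        exact ⟨h1, h2⟩
    · rintro ⟨h1, h2⟩
      rw [hout x h2, h1]
  have hzz : b' z = b z := (hbz z).2 ⟨rfl, fun h1 => h1.1 rfl⟩
  have hui : b' u = b u := hout u (fun h1 => h1.2 k.hus)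
  -- leaving a part of the class of `z` that does not contain the label class of `z`
  have hleave : ∀ W : Set V, (∀ x ∈ W, b' x = b z) → (∀ x, c x = c z → x ∉ W) → W.Nonempty →
      ∃ a d, a ∈ W ∧ d ∉ W ∧ b' d = b z ∧ G.Adj a d := by
    intro W hW hD ⟨x, hx⟩
    obtain ⟨a, d, h1, h2, h3, h4, h5⟩ := hb.conn (b z) W ⟨x, ((hbz x).1 (hW x hx)).1, hx⟩
      ⟨z, rfl, hD z rfl⟩
    refine ⟨a, d, h3, h4, ?_, hadj h5⟩
    have haz : c a ≠ c z := fun h6 => hD a h6 h3
    have haS : a ∈ S := by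
      by_contra h6
      exact ((hbz a).1 (hW a h3)).2 ⟨haz, h6⟩
    refine (hbz d).2 ⟨h2, fun h6 => ?_⟩
    exact hnc a d h5 haz h6.1 haS h6.2
  refine ⟨b', ⟨?_, ?_, ?_⟩, ?_, ?_⟩
  · intro i
    by_cases hi : i = b z
    · exact ⟨z, hzz.trans hi.symm⟩
    · obtain ⟨x, hx⟩ := hb.surj i
      exact ⟨x, (hbne x (fun h1 => hi (hx.symm.trans h1))).trans hx⟩
  · intro i
    by_cases hi : i = b z
    · subst hi
      intro S' ⟨x, hx, hxS'⟩ ⟨y, hy, hyS'⟩
      by_contra hno
      push Not at hno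
      by_cases hD : ∀ x, c x = c z → x ∉ S'
      · obtain ⟨a, d, h1, h2, h3, h4⟩ := hleave {x | b' x = b z ∧ x ∈ S'} (fun x hx => hx.1)
          (fun x hx h1 => hD x hx h1.2) ⟨x, hx, hxS'⟩
        exact hno a d h1.1 h3 h1.2 (fun h5 => h2 ⟨h3, h5⟩) h4
      · push Not at hD
        obtain ⟨y', hy', hy's⟩ := hD
        have hD' : ∀ x, c x = c z → x ∈ S' := by
          intro x' hx'
          by_contra hx's
          obtain ⟨a, d, h1, h2, h3, h4, h5⟩ := h.cc z S' ⟨y', hy', hy's⟩ ⟨x', hx', hx's⟩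
          exact hno a d ((hbz a).2 ⟨hc a z h1, fun h6 => h6.1 h1⟩)
            ((hbz d).2 ⟨hc d z h2, fun h6 => h6.1 h2⟩) h3 h4 (h.le h5)
        obtain ⟨a, d, h1, h2, h3, h4⟩ := hleave {x | b' x = b z ∧ x ∉ S'} (fun x hx => hx.1)
          (fun x hx h1 => h1.2 (hD' x hx)) ⟨y, hy, hyS'⟩
        refine hno d a h3 h1.1 ?_ h1.2 h4.symm
        by_contra h5
        exact h2 ⟨h3, h5⟩
    · by_cases hi2 : i = b u
      · subst hi2
        have h1 := ((hb.conn (b u)).mono (deleteEdges_le _)).union (conn_side h k)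
          (a := u) (b := v) rfl ⟨k.hv, k.hvs⟩ huv
        have h2 : {x | b' x = b u} = {x | b x = b u} ∪ {x | c x ≠ c z ∧ x ∉ S} := by
          ext x
          constructor
          · intro hx
            by_cases h3 : c x ≠ c z ∧ x ∉ S
            · exact Or.inr h3
            · exact Or.inl ((hout x h3).symm.trans hx)
          · rintro (hx | hx)
            · exact (hbne x (fun h3 => hbu ((show b x = b u from hx).symm.trans h3))).trans hx
            · exact hin x hx
        rw [h2]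
        exact h1
      · have h2 : {x | b' x = i} = {x | b x = i} := by
          ext x
          constructor
          · intro hx
            by_cases h3 : c x ≠ c z ∧ x ∉ S
            · exact absurd ((hin x h3).symm.trans hx) (fun h4 => hi2 h4.symm)
            · exact (hout x h3).symm.trans hx
          · intro hx
            exact (hbne x (fun h3 => hi ((show b x = i from hx).symm.trans h3))).trans hx
        rw [h2]
        exact (hb.conn i).mono (deleteEdges_le _)
  · intro p hp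
    refine (hb.cnt p hp).trans (Set.ncard_le_ncard ?_ (Set.toFinite _))
    rintro e ⟨he, hm⟩
    induction e using Sym2.ind with
    | _ x y =>
      rw [mem_edgeSet] at he
      rw [Sym2.map_mk] at hm
      have hne : b x ≠ b y := by
        intro h1
        apply hp
        rw [← hm, h1]
        exact Sym2.mk_isDiag_iff.2 rfl
      have key : ∀ x y, (G.deleteEdges {s(u, v)}).Adj x y → b x ≠ b y → b' x = b x := by
        intro x y hxy hne
        apply hout
        rintro ⟨h1, h2⟩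
        have h3 := hside x h1 h2
        have h4 : b y ≠ b z := fun h5 => hne (h3.trans h5.symm)
        have h5 : c y ≠ c z := fun h6 => h4 (hc y z h6)
        have h6 : y ∈ S := by
          by_contra h7
          exact h4 (hside y h5 h7)
        exact hnc y x hxy.symm h5 h1 h6 h2
      refine ⟨hadj he, ?_⟩
      rw [Sym2.map_mk, key x y he hne, key y x he.symm hne.symm]
      exact hm
  · intro x y hxy
    by_cases h1 : c x = c z
    · rw [hout x (fun h2 => h2.1 h1), hout y (fun h2 => h2.1 (hxy.symm.trans h1))]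
      exact hc x y hxy
    · by_cases h2 : x ∈ S
      · rw [hout x (fun h3 => h3.2 h2), hout y (fun h3 => h3.2 ((cls h hT k hxy h1).1 h2))]
        exact hc x y hxy
      · rw [hin x ⟨h1, h2⟩, hin y ⟨fun h3 => h1 (hxy.trans h3),
          fun h3 => h2 ((cls h hT k hxy h1).2 h3)⟩]
  · rw [hui, hin v ⟨k.hv, k.hvs⟩]

/-- Case 3 of the strategy: the edge is contracted. -/
theorem St.contract [Finite V] (hw : Pat w) (h : St w G T c) (huv : G.Adj u v)
    (hT : ¬ T.Adj u v) (k : Cut G c u v z S) (hm : RM w (G.deleteEdges {s(u, v)}) c) :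
    St w G (T ⊔ edge u v) (mg c u v) := by
  have hcuv : c u ≠ c v := cu_ne_cv h huv hT
  refine ⟨?_, ?_, ?_, ?_, ?_, ?_, ?_⟩
  · refine sup_le h.le ?_
    intro x y hxy
    rw [edge_adj] at hxy
    obtain ⟨⟨rfl, rfl⟩ | ⟨rfl, rfl⟩, -⟩ := hxy
    · exact huv
    · exact huv.symm
  · intro x y hxy
    rw [mg_iff]
    rw [sup_adj, edge_adj] at hxy
    rcases hxy with h1 | ⟨⟨rfl, rfl⟩ | ⟨rfl, rfl⟩, -⟩
    · exact Or.inl (h.tc x y h1)
    · exact Or.inr (Or.inl ⟨rfl, rfl⟩)
    · exact Or.inr (Or.inr ⟨rfl, rfl⟩)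
  · intro y
    have hTle : T ≤ T ⊔ edge u v := le_sup_left
    have huv' : (T ⊔ edge u v).Adj u v := by
      rw [sup_adj, edge_adj]
      exact Or.inr ⟨Or.inl ⟨rfl, rfl⟩, huv.ne⟩
    by_cases hy : c y = c u ∨ c y = c v
    · have h1 : {x | mg c u v x = mg c u v y} = {x | c x = c u} ∪ {x | c x = c v} := by
        ext x
        change mg c u v x = mg c u v y ↔ c x = c u ∨ c x = c v
        rw [mg_iff]
        rcases hy with hy | hy <;> rw [hy] <;> grind
      rw [h1]
      exact ((h.cc u).mono hTle).union ((h.cc v).mono hTle) (a := u) (b := v) rfl rfl huv'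
    · have h1 : {x | mg c u v x = mg c u v y} = {x | c x = c y} := by
        ext x
        change mg c u v x = mg c u v y ↔ c x = c y
        rw [mg_iff]
        grind
      rw [h1]
      exact (h.cc y).mono hTle
  · intro x y hxy hxyT h1
    rw [mg_iff] at h1
    have hxyT' : ¬ T.Adj x y := fun h2 => hxyT (Or.inl h2)
    have key : ∀ x y, G.Adj x y → ¬ (T ⊔ edge u v).Adj x y → c x = c u → c y = c v → False := by
      intro x y hxy hxyT h2 h3
      have h4 : x ∈ S := (cls h hT k h2.symm k.hu).1 k.hus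
      have h5 : y ∉ S := fun h6 => k.hvs ((cls h hT k h3.symm k.hv).2 h6)
      obtain ⟨rfl, rfl⟩ := k.cut x y (fun h6 => k.hu (h2.symm.trans h6))
        (fun h6 => k.hv (h3.symm.trans h6)) h4 h5 hxy
      exact hxyT (by
        rw [sup_adj, edge_adj]
        exact Or.inr ⟨Or.inl ⟨rfl, rfl⟩, huv.ne⟩)
    rcases h1 with h1 | ⟨h1, h2⟩ | ⟨h1, h2⟩
    · exact h.nl x y hxy hxyT' h1
    · exact key x y hxy hxyT h1 h2
    · exact key y x hxy.symm (fun h3 => hxyT h3.symm) h2 h1
  · apply IsAcyclic.sup_edge_of_not_reachable _ h.ac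
    rintro ⟨p⟩
    have : ∀ {x y : V} (p : T.Walk x y), c x = c y := by
      intro x y p
      induction p with
      | nil => rfl
      | cons h1 _ ih => exact (h.tc _ _ h1).trans ih
    exact hcuv (this p)
  · intro y
    by_cases hy : c y = c u ∨ c y = c v
    · have h1 : {x | mg c u v x ≠ mg c u v y} = {x | c x ≠ c u ∧ c x ≠ c v} := by
        ext x
        change ¬ (mg c u v x = mg c u v y) ↔ ¬ (c x = c u) ∧ ¬ (c x = c v)
        rw [mg_iff]
        rcases hy with hy | hy <;> rw [hy] <;> grind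
      rw [h1]
      exact two_merge k h hT huv
    · have h1 : {x | mg c u v x ≠ mg c u v y} = {x | c x ≠ c y} := by
        ext x
        change ¬ (mg c u v x = mg c u v y) ↔ ¬ (c x = c y)
        rw [mg_iff]
        grind
      rw [h1]
      exact h.two y
  · obtain ⟨b, hb, hc⟩ := hm
    have hfin : ∃ b' : V → Fin r, Model w G b' ∧ (∀ x y, c x = c y → b' x = b' y) ∧
        b' u = b' v := by
      by_cases hs : ∀ x, c x ≠ c z → x ∉ S → b x = b z
      · exact mod_one h huv hT k hb hc hs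
      · have hs' : ∀ x, c x ≠ c z → x ∉ Sᶜ → b x = b z := by
          intro x hx hxS
          by_contra hxz
          push Not at hs
          obtain ⟨y, hy, hyS, hyz⟩ := hs
          obtain ⟨a, d, h1, h2, h3, h4, h5⟩ := hb.rest hw (b z) S ⟨x, hxz, not_not.1 hxS⟩
            ⟨y, hyz, hyS⟩
          obtain ⟨h6, h7⟩ := k.cut a d (fun h8 => h1 (hc a z h8)) (fun h8 => h2 (hc d z h8)) h3 h4
            (deleteEdges_le _ h5)
          rw [deleteEdges_adj, h6, h7] at h5
          exact h5.2 rfl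
        have hb2 : Model w (G.deleteEdges {s(v, u)}) b := by
          rwa [Sym2.eq_swap]
        obtain ⟨b', h1, h2, h3⟩ := mod_one h huv.symm (fun h1 => hT h1.symm) k.symm hb2 hc hs'
        exact ⟨b', h1, h2, h3.symm⟩
    obtain ⟨b', h1, h2, h3⟩ := hfin
    refine ⟨b', h1, fun x y hxy => ?_⟩
    rw [mg_iff] at hxy
    rcases hxy with h4 | ⟨h4, h5⟩ | ⟨h4, h5⟩
    · exact h2 x y h4
    · exact (h2 x u h4).trans (h3.trans (h2 v y h5.symm))
    · exact (h2 x v h4).trans (h3.symm.trans (h2 u y h5.symm))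

end

end Pool.Agent.L0h66.EV
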