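import Pool.Agent.L0h66.EV.Host

/-!
# Special patterns; the converse for simple patterns
-/

set_option autoImplicit false
set_option linter.unusedSectionVars false
set_option linter.unusedVariables false

namespace Pool.Agent.L0h66.EV

open SimpleGraph

variable {V : Type} {r : ℕ}

/-- positive weights -/
theorem pat_pos {w : Sym2 (Fin r) → ℕ} (h : ∀ p, ¬ Sym2.IsDiag p → 0 < w p)
    (ht : 2 ≤ ∑ p with ¬ Sym2.IsDiag p, w p) : Pat w := by
  refine ⟨?_, ?_, ht⟩
  · rintro i K ⟨k, hk, hki⟩ ⟨l, hl, hli⟩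
    refine ⟨k, l, hk, hki, hl, hli, h _ ?_⟩
    rw [Sym2.mk_isDiag_iff]
    rintro rfl
    exact hl hk
  · intro p₁ hp₁
    refine ⟨Equiv.refl _, p₁, hp₁, h _ hp₁, fun p _ => ?_⟩
    have h1 : p.map (Equiv.refl (Fin r)) = p := by
      rw [Equiv.coe_refl, Sym2.map_id]
      rfl
    rw [h1]

open Classical in
/-- the weight of a simple pattern -/
noncomputable def pw (M : SimpleGraph (Fin r)) : Sym2 (Fin r) → ℕ :=
  fun p => if p ∈ M.edgeSet then 1 else 0

/-- the graph `G` has a minor isomorphic to `M` -/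
def HasGraphMinor (M : SimpleGraph (Fin r)) (G : SimpleGraph V) : Prop :=
  ∃ B : Fin r → Set V, (∀ i, (G.induce (B i)).Connected) ∧
    (∀ i j, i ≠ j → Disjoint (B i) (B j)) ∧
    ∀ i j, M.Adj i j → ∃ x ∈ B i, ∃ y ∈ B j, G.Adj x y

theorem graphMinor_iff [Finite V] (M : SimpleGraph (Fin r)) (G : SimpleGraph V) :
    HasMinor (pw M) G ↔ HasGraphMinor M G := by
  constructor
  · rintro ⟨B, h1, h2, h3⟩
    refine ⟨B, h1, h2, fun i j hij => ?_⟩
    have h4 := h3 i j hij.ne
    unfold pw at h4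
    rw [if_pos (show s(i, j) ∈ M.edgeSet from hij)] at h4
    obtain ⟨e, he, x, hx, y, hy, rfl⟩ := (Set.ncard_pos (Set.toFinite _)).1 h4
    exact ⟨x, hx, y, hy, he⟩
  · rintro ⟨B, h1, h2, h3⟩
    refine ⟨B, h1, h2, fun i j hij => ?_⟩
    unfold pw
    split_ifs with h4
    · obtain ⟨x, hx, y, hy, hxy⟩ := h3 i j h4
      rw [Nat.one_le_iff_ne_zero, ← Nat.pos_iff_ne_zero, Set.ncard_pos (Set.toFinite _)]
      exact ⟨s(x, y), hxy, x, hx, y, hy, rfl⟩
    · exact Nat.zero_le _

/-- Every graph that arises from `M` by adding an edge `i j` contains a copy of `M` after the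
deletion of some edge of `M`. -/
def Exchangeable (M : SimpleGraph (Fin r)) : Prop :=
  ∀ i j, i ≠ j → ¬ M.Adj i j → ∃ σ : Equiv.Perm (Fin r), ∃ c d, M.Adj c d ∧
    ∀ a b, M.Adj a b → s(σ a, σ b) ≠ s(c, d) ∧ (M.Adj (σ a) (σ b) ∨ s(σ a, σ b) = s(i, j))

theorem sum_pw (M : SimpleGraph (Fin r)) :
    ∑ p with ¬ Sym2.IsDiag p, pw M p = M.edgeSet.ncard := by
  classical
  unfold pw
  rw [Finset.sum_boole, Finset.filter_filter, ← Set.ncard_coe_finset]
  simp only [Nat.cast_id]
  congr 1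
  ext e
  rw [Finset.coe_filter]
  constructor
  · rintro ⟨-, -, h⟩
    exact h
  · intro h
    exact ⟨Finset.mem_univ _, M.not_isDiag_of_mem_edgeSet h, h⟩

theorem pat_graph {M : SimpleGraph (Fin r)} (hr : 3 ≤ r) (h1 : M.Connected)
    (h2 : ∀ x, (M.induce {x}ᶜ).Preconnected) (h3 : Exchangeable M) : Pat (pw M) := by
  classical
  have hpos : ∀ {i j : Fin r}, M.Adj i j → 0 < pw M s(i, j) := by
    intro i j hij
    unfold pw
    rw [if_pos (show s(i, j) ∈ M.edgeSet from hij)]
    exact Nat.one_pos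
  refine ⟨?_, ?_, ?_⟩
  · rintro i K ⟨k, hk, hki⟩ ⟨l, hl, hli⟩
    obtain ⟨a, b, k1, k2, k3, k4, k5⟩ := cut_iff.2 (h2 i) K ⟨k, hki, hk⟩ ⟨l, hli, hl⟩
    exact ⟨a, b, k3, k1, k4, k2, hpos k5⟩
  · intro p₁ hp₁
    induction p₁ using Sym2.ind with
    | _ i j =>
      rw [Sym2.mk_isDiag_iff] at hp₁
      by_cases hij : M.Adj i j
      · refine ⟨Equiv.refl _, s(i, j), by simpa using hp₁, hpos hij, fun p _ => ?_⟩
        have h4 : p.map (Equiv.refl (Fin r)) = p := by
          rw [Equiv.coe_refl, Sym2.map_id]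
          rfl
        rw [h4]
      · obtain ⟨σ, c, d, hcd, hσ⟩ := h3 i j hp₁ hij
        refine ⟨σ, s(c, d), by simpa using hcd.ne, hpos hcd, fun p hp => ?_⟩
        induction p using Sym2.ind with
        | _ a b =>
          rw [Sym2.map_mk]
          by_cases hab : M.Adj a b
          · obtain ⟨h4, h5⟩ := hσ a b hab
            rw [if_neg h4]
            have h6 : pw M s(a, b) = 1 := if_pos hab
            rcases h5 with h5 | h5
            · have h7 : pw M s(σ a, σ b) = 1 := if_pos h5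
              omega
            · rw [if_pos h5]
              omega
          · have h6 : pw M s(a, b) = 0 := if_neg hab
            rw [h6]
            by_cases h4 : s(σ a, σ b) = s(c, d)
            · rw [if_pos h4, h4]
              have := hpos hcd
              omega
            · rw [if_neg h4]
              omega
  · rw [sum_pw]
    have h4 := h1.card_vert_le_card_edgeSet_add_one
    rw [Nat.card_coe_set_eq, Nat.card_eq_fintype_card, Fintype.card_fin] at h4
    omega

theorem HasGraphMinor.mono {M : SimpleGraph (Fin r)} {G H : SimpleGraph V} (h : HasGraphMinor M G)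
    (hle : G ≤ H) : HasGraphMinor M H := by
  obtain ⟨B, h1, h2, h3⟩ := h
  refine ⟨B, fun i => (h1 i).mono ?_, h2, fun i j hij => ?_⟩
  · intro x y hxy
    exact hle hxy
  · obtain ⟨x, hx, y, hy, hxy⟩ := h3 i j hij
    exact ⟨x, hx, y, hy, hle hxy⟩

theorem self_minor (M : SimpleGraph (Fin r)) : HasGraphMinor M M := by
  refine ⟨fun i => {i}, ?_, ?_, ?_⟩
  · intro i
    rw [connected_iff]
    refine ⟨?_, ⟨⟨i, rfl⟩⟩⟩
    rintro ⟨x, rfl⟩ ⟨y, rfl⟩
    exact Reachable.refl _
  · intro i j hij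
    simpa using hij
  · intro i j hij
    exact ⟨i, rfl, j, rfl, hij⟩

/-- the strategy that leaves out one edge -/
theorem leave_out {E : Type} [DecidableEq E] (E' : Finset E) (f : Finset E → E)
    (hf : ∀ Q, (∃ e ∈ E', e ∉ Q) → f Q ∈ E' ∧ f Q ∉ Q) :
    ∀ k, k ≤ E'.card → k ≤ ((fun Q : Finset E => insert (f Q) Q)^[k] ∅ ∩ E').card := by
  intro k
  induction k with
  | zero => intro _; exact Nat.zero_le _
  | succ k ih =>
    intro hk
    rw [Function.iterate_succ_apply']
    set Q := (fun Q : Finset E => insert (f Q) Q)^[k] ∅ with hQ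
    have h1 := ih (by omega)
    by_cases h2 : ∃ e ∈ E', e ∉ Q
    · obtain ⟨h3, h4⟩ := hf Q h2
      rw [Finset.insert_inter_of_mem h3, Finset.card_insert_of_notMem]
      · omega
      · intro h5
        exact h4 (Finset.mem_inter.1 h5).1
    · push Not at h2
      have h3 : E' ⊆ insert (f Q) Q ∩ E' := by
        intro e he
        exact Finset.mem_inter.2 ⟨Finset.mem_insert_of_mem (h2 e he), he⟩
      exact hk.trans (Finset.card_le_card h3)

/-- **The converse.** -/
theorem converse {M : SimpleGraph (Fin r)} (h1 : M.Connected)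
    (h2 : ∀ x, (M.induce {x}ᶜ).Preconnected)
    (h : ∀ G₀ : SimpleGraph (Fin r), G₀.Connected → (∀ x, (G₀.induce {x}ᶜ).Preconnected) →
      HasGraphMinor M G₀ → EvasiveOn G₀ (fun G => HasGraphMinor M G)) : Exchangeable M := by
  classical
  intro i j hij hM
  set G₀ : SimpleGraph (Fin r) := M ⊔ edge i j with hG₀
  have hle : M ≤ G₀ := le_sup_left
  have hev := h G₀ (h1.mono hle) (fun x => (h2 x).mono (fun a b hab => hle hab))
    ((self_minor M).mono hle)
  set E0 : Finset (Sym2 (Fin r)) := (Set.toFinite G₀.edgeSet).toFinset with hE0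
  have hmem : ∀ e, e ∈ E0 ↔ e ∈ G₀.edgeSet := fun e => Set.Finite.mem_toFinset _
  have hcard : E0.card = G₀.edgeSet.ncard := (Set.ncard_eq_toFinset_card _ _).symm
  have hijG : s(i, j) ∈ G₀.edgeSet := by
    rw [mem_edgeSet, hG₀, sup_adj, edge_adj]
    exact Or.inr ⟨Or.inl ⟨rfl, rfl⟩, hij⟩
  set E' := E0.erase s(i, j) with hE'
  have hcard' : E'.card = E0.card - 1 := Finset.card_erase_of_mem ((hmem _).2 hijG)
  set f : Finset (Sym2 (Fin r)) → Sym2 (Fin r) := fun Q =>
    if hQ : ∃ e, e ∈ E' ∧ e ∉ Q then Classical.choose hQ else s(i, j) with hf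
  have hfs : ∀ Q, (∃ e ∈ E', e ∉ Q) → f Q ∈ E' ∧ f Q ∉ Q := by
    intro Q hQ
    have : f Q = Classical.choose hQ := dif_pos hQ
    rw [this]
    exact Classical.choose_spec hQ
  obtain ⟨G, H, hG, hH, hag, hPG, hPH⟩ := hev (fun Q _ => f Q) (fun _ _ _ _ => rfl)
  rw [← hcard, ← hcard'] at hag
  have h3 := leave_out E' f hfs E'.card le_rfl
  have h4 : ∀ e ∈ E', (e ∈ G.edgeSet ↔ e ∈ H.edgeSet) := by
    intro e he
    have h5 := Finset.eq_of_subset_of_card_le
      (Finset.inter_subset_right (s₁ := (fun Q : Finset (Sym2 (Fin r)) => insert (f Q) Q)^[E'.card] ∅)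
        (s₂ := E')) h3
    rw [← h5, Finset.mem_inter] at he
    exact hag e he.1
  have hmemE' : ∀ e, e ∈ G₀.edgeSet → e ≠ s(i, j) → e ∈ E' := fun e he hne =>
    Finset.mem_erase.2 ⟨hne, (hmem e).2 he⟩
  have hijG' : s(i, j) ∈ G.edgeSet := by
    by_contra h5
    apply hPH
    refine hPG.mono ?_
    rw [← edgeSet_subset_edgeSet]
    intro e he
    have hne : e ≠ s(i, j) := by
      rintro rfl
      exact h5 he
    exact (h4 e (hmemE' e (edgeSet_mono hG he) hne)).1 he
  obtain ⟨B, k1, k2, k3⟩ := hPG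
  have hne : ∀ a, ∃ x, x ∈ B a := by
    intro a
    obtain ⟨⟨x, hx⟩⟩ := (k1 a).nonempty
    exact ⟨x, hx⟩
  choose τ hτ using hne
  have hinj : Function.Injective τ := by
    intro a b hab
    by_contra hne
    exact Set.disjoint_left.1 (k2 a b hne) (hτ a) (hab ▸ hτ b)
  have hsurj : Function.Surjective τ := Finite.injective_iff_surjective.1 hinj
  have hB : ∀ a x, x ∈ B a → x = τ a := by
    intro a x hx
    obtain ⟨b, rfl⟩ := hsurj x
    by_contra hne
    have hab : a ≠ b := by
      rintro rfl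
      exact hne rfl
    exact Set.disjoint_left.1 (k2 a b hab) hx (hτ b)
  have hτadj : ∀ a b, M.Adj a b → G.Adj (τ a) (τ b) := by
    intro a b hab
    obtain ⟨x, hx, y, hy, hxy⟩ := k3 a b hab
    rw [hB a x hx, hB b y hy] at hxy
    exact hxy
  by_cases hall : ∀ e ∈ G₀.edgeSet, e ∈ G.edgeSet
  · exfalso
    apply hPH
    refine (self_minor M).mono ?_
    rw [← edgeSet_subset_edgeSet]
    intro e he
    have hne : e ≠ s(i, j) := by
      rintro rfl
      exact hM he
    have h5 := edgeSet_mono hle he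
    exact (h4 e (hmemE' e h5 hne)).1 (hall e h5)
  · push Not at hall
    obtain ⟨e, he, heG⟩ := hall
    induction e using Sym2.ind with
    | _ c d =>
      have hne : s(c, d) ≠ s(i, j) := fun h5 => heG (h5 ▸ hijG')
      have hcd : M.Adj c d := by
        rw [mem_edgeSet, hG₀, sup_adj, edge_adj] at he
        rcases he with he | he
        · exact he
        · exact absurd (Sym2.eq_iff.2 he.1) hne
      have hbij : Function.Bijective τ := ⟨hinj, hsurj⟩
      refine ⟨Equiv.ofBijective τ hbij, c, d, hcd, fun a b hab => ?_⟩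
      change s(τ a, τ b) ≠ s(c, d) ∧ (M.Adj (τ a) (τ b) ∨ s(τ a, τ b) = s(i, j))
      have h5 := hτadj a b hab
      refine ⟨fun h6 => heG (h6 ▸ h5), ?_⟩
      have h6 := hG h5
      rw [hG₀, sup_adj, edge_adj] at h6
      rcases h6 with h6 | h6
      · exact Or.inl h6
      · exact Or.inr (Sym2.eq_iff.2 h6.1)

end Pool.Agent.L0h66.EV
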